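import Mathlib
import Pool.Agent.W545.Man.Seg
set_option autoImplicit false
open Set Filter Topology MeasureTheory Function
open scoped ENNReal

/-!
Functions on a cube which are almost invariant under changes of single coordinates are almost
constant.
-/

namespace Pool.Agent.W722.St

variable {d : ℕ}

/-- the coordinates in `S` from `x'`, the others from `x` -/
def mixS (S : Fin d → Prop) [DecidablePred S] (x x' : Fin d → ℝ) : Fin d → ℝ :=
  fun i => if S i then x' i else x i

theorem mp_mix (m : Fin d → Measure ℝ) [∀ i, SigmaFinite (m i)] (S : Fin d → Prop)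
    [DecidablePred S] :
    MeasurePreserving (fun p : (Fin d → ℝ) × (Fin d → ℝ) => (mixS S p.1 p.2, mixS S p.2 p.1))
      ((Measure.pi m).prod (Measure.pi m)) ((Measure.pi m).prod (Measure.pi m)) := by
  have h1 := measurePreserving_arrowProdEquivProdArrow ℝ ℝ (Fin d) m m
  have h2 : MeasurePreserving (fun (a : Fin d → ℝ × ℝ) i => (if S i then Prod.swap else id) (a i))
      (Measure.pi fun i => (m i).prod (m i)) (Measure.pi fun i => (m i).prod (m i)) := by
    apply measurePreserving_pi
    intro i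
    by_cases hi : S i
    · simp only [hi, if_true]
      exact Measure.measurePreserving_swap
    · simp only [hi, if_false]
      exact MeasurePreserving.id _
  have h3 := (h1.comp h2).comp (h1.symm)
  convert h3 using 1
  funext p
  ext i
  · by_cases hi : S i <;> simp [mixS, hi, MeasurableEquiv.arrowProdEquivProdArrow,
      Equiv.arrowProdEquivProdArrow]
  · by_cases hi : S i <;> simp [mixS, hi, MeasurableEquiv.arrowProdEquivProdArrow,
      Equiv.arrowProdEquivProdArrow]

/-- the change of `v` when the coordinate `k` is changed -/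
noncomputable def JJ (P : Measure (Fin d → ℝ)) (k : Fin d) (v : (Fin d → ℝ) → ℝ) : ℝ≥0∞ :=
  ∫⁻ x, ∫⁻ x', W545.Man.sq (v x - v (update x k (x' k))) ∂P ∂P

theorem sq_meas' {X : Type*} [MeasurableSpace X] {f : X → ℝ} (hf : Measurable f) :
    Measurable fun x => W545.Man.sq (f x) := by
  unfold Pool.Agent.W545.Man.sq
  fun_prop

theorem upd_meas (k : Fin d) :
    Measurable fun p : (Fin d → ℝ) × (Fin d → ℝ) => update p.1 k (p.2 k) := by
  rw [measurable_pi_iff]
  intro i
  by_cases hi : i = k
  · subst hi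
    simp only [update_self]
    fun_prop
  · simp only [update_of_ne hi]
    fun_prop

theorem JJ_prod (m : Fin d → Measure ℝ) [∀ i, SigmaFinite (m i)] (k : Fin d)
    {v : (Fin d → ℝ) → ℝ} (hv : Measurable v) : JJ (Measure.pi m) k v =
      ∫⁻ p, W545.Man.sq (v p.1 - v (update p.1 k (p.2 k))) ∂((Measure.pi m).prod (Measure.pi m)) := by
  unfold JJ
  rw [lintegral_prod]
  apply Measurable.aemeasurable
  apply sq_meas'
  exact (hv.comp measurable_fst).sub (hv.comp (upd_meas k))

theorem mix_step (m : Fin d → Measure ℝ) [∀ i, SigmaFinite (m i)] (k : Fin d)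
    {v : (Fin d → ℝ) → ℝ} (hv : Measurable v) :
    ∫⁻ p, W545.Man.sq (v (mixS (fun i => (i : ℕ) < k) p.1 p.2) - v (mixS (fun i => (i : ℕ) < k + 1) p.1 p.2))
      ∂((Measure.pi m).prod (Measure.pi m)) = JJ (Measure.pi m) k v := by
  rw [JJ_prod m k hv]
  have h := mp_mix m (fun i : Fin d => (i : ℕ) < k)
  rw [← h.lintegral_comp (f := fun p => W545.Man.sq (v p.1 - v (update p.1 k (p.2 k))))]
  · congr 1
    funext p
    have : update (mixS (fun i : Fin d => (i : ℕ) < k) p.1 p.2) k
        (mixS (fun i : Fin d => (i : ℕ) < k) p.2 p.1 k) =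
        mixS (fun i : Fin d => (i : ℕ) < k + 1) p.1 p.2 := by
      funext i
      by_cases hi : i = k
      · subst hi
        simp [mixS]
      · rw [update_of_ne hi]
        have : (i : ℕ) ≠ k := fun h => hi (Fin.ext h)
        by_cases h2 : (i : ℕ) < k
        · simp only [mixS, h2, if_true]
          rw [if_pos (by omega)]
        · simp only [mixS, h2, if_false]
          rw [if_neg (by omega)]
    simp only [this]
  · apply sq_meas'
    exact (hv.comp measurable_fst).sub (hv.comp (upd_meas k))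

theorem sq_sum_le (f : ℕ → ℝ) (n : ℕ) : W545.Man.sq (∑ k ∈ Finset.range n, f k) ≤
    (n : ℝ≥0∞) * ∑ k ∈ Finset.range n, W545.Man.sq (f k) := by
  unfold Pool.Agent.W545.Man.sq
  rw [← ENNReal.ofReal_sum_of_nonneg (fun i _ => sq_nonneg _), ← ENNReal.ofReal_natCast,
    ← ENNReal.ofReal_mul (by positivity)]
  apply ENNReal.ofReal_le_ofReal
  have := sq_sum_le_card_mul_sum_sq (s := Finset.range n) (f := f)
  rwa [Finset.card_range] at this

/-- tensorisation -/
theorem tensor (m : Fin d → Measure ℝ) [∀ i, SigmaFinite (m i)] {v : (Fin d → ℝ) → ℝ}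
    (hv : Measurable v) :
    ∫⁻ x, ∫⁻ x', W545.Man.sq (v x - v x') ∂(Measure.pi m) ∂(Measure.pi m) ≤
      (d : ℝ≥0∞) * ∑ k : Fin d, JJ (Measure.pi m) k v := by
  have hm1 : Measurable fun p : (Fin d → ℝ) × (Fin d → ℝ) => W545.Man.sq (v p.1 - v p.2) :=
    sq_meas' ((hv.comp measurable_fst).sub (hv.comp measurable_snd))
  have e0 : ∫⁻ x, ∫⁻ x', W545.Man.sq (v x - v x') ∂(Measure.pi m) ∂(Measure.pi m) =
      ∫⁻ p, W545.Man.sq (v p.1 - v p.2) ∂((Measure.pi m).prod (Measure.pi m)) := by
    rw [lintegral_prod _ hm1.aemeasurable]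
  have hmx : ∀ k : ℕ, Measurable fun p : (Fin d → ℝ) × (Fin d → ℝ) =>
      mixS (fun i => (i : ℕ) < k) p.1 p.2 := by
    intro k
    rw [measurable_pi_iff]
    intro i
    by_cases hi : (i : ℕ) < k
    · simp only [mixS, hi, if_true]; fun_prop
    · simp only [mixS, hi, if_false]; fun_prop
  have hmk : ∀ k : ℕ, Measurable fun p : (Fin d → ℝ) × (Fin d → ℝ) =>
      W545.Man.sq (v (mixS (fun i => (i : ℕ) < k) p.1 p.2) - v (mixS (fun i => (i : ℕ) < k + 1) p.1 p.2)) := by
    intro k
    exact sq_meas' ((hv.comp (hmx k)).sub (hv.comp (hmx (k + 1))))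
  rw [e0]
  calc ∫⁻ p, W545.Man.sq (v p.1 - v p.2) ∂((Measure.pi m).prod (Measure.pi m))
      ≤ ∫⁻ p, (d : ℝ≥0∞) * ∑ k ∈ Finset.range d, W545.Man.sq (v (mixS (fun i => (i : ℕ) < k) p.1 p.2) -
          v (mixS (fun i => (i : ℕ) < k + 1) p.1 p.2)) ∂((Measure.pi m).prod (Measure.pi m)) := by
        apply lintegral_mono
        intro p
        refine le_trans (le_of_eq ?_) (sq_sum_le _ _)
        have := Finset.sum_range_sub' (fun k : ℕ => v (mixS (fun i : Fin d => (i : ℕ) < k) p.1 p.2)) d
        rw [this]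
        have e1 : mixS (fun i : Fin d => (i : ℕ) < 0) p.1 p.2 = p.1 := by
          funext i; simp [mixS]
        have e2 : mixS (fun i : Fin d => (i : ℕ) < d) p.1 p.2 = p.2 := by
          funext i; simp [mixS, i.2]
        rw [e1, e2]
    _ = (d : ℝ≥0∞) * ∑ k ∈ Finset.range d, ∫⁻ p, W545.Man.sq (v (mixS (fun i => (i : ℕ) < k) p.1 p.2) -
          v (mixS (fun i => (i : ℕ) < k + 1) p.1 p.2)) ∂((Measure.pi m).prod (Measure.pi m)) := by
        rw [lintegral_const_mul _ (Finset.measurable_fun_sum _ fun k _ => hmk k),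
          lintegral_finsetSum _ fun k _ => hmk k]
    _ = _ := by
        congr 1
        rw [Finset.sum_range]
        refine Finset.sum_congr rfl fun k _ => ?_
        exact mix_step m k hv

/-- almost constant -/
theorem exists_const (m : Fin d → Measure ℝ) [∀ i, IsFiniteMeasure (m i)] (h0 : Measure.pi m ≠ 0)
    {v : (Fin d → ℝ) → ℝ} (hv : Measurable v) : ∃ c : ℝ,
    ∫⁻ x, W545.Man.sq (v x - c) ∂(Measure.pi m) ≤
      (d : ℝ≥0∞) * (∑ k : Fin d, JJ (Measure.pi m) k v) / Measure.pi m univ := by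
  have hm1 : Measurable fun p : (Fin d → ℝ) × (Fin d → ℝ) => W545.Man.sq (v p.1 - v p.2) :=
    sq_meas' ((hv.comp measurable_fst).sub (hv.comp measurable_snd))
  have h1 := tensor m hv
  rw [lintegral_lintegral_swap hm1.aemeasurable] at h1
  obtain ⟨x', hx'⟩ := exists_le_laverage (μ := Measure.pi m)
    (f := fun x' => ∫⁻ x, W545.Man.sq (v x - v x') ∂(Measure.pi m)) h0
    ((hm1.comp measurable_swap).lintegral_prod_right').aemeasurable
  refine ⟨v x', hx'.trans ?_⟩
  rw [laverage_eq]
  gcongr

/-- the integral over one coordinate -/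
theorem upd_int (m : Fin d → Measure ℝ) [∀ i, SigmaFinite (m i)] (k : Fin d)
    {F : (Fin d → ℝ) → ℝ≥0∞} (hF : Measurable F) :
    ∫⁻ x, ∫⁻ τ, F (update x k τ) ∂(m k) ∂(Measure.pi m) = m k univ * ∫⁻ x, F x ∂(Measure.pi m) := by
  have hupd : Measurable fun p : (Fin d → ℝ) × ℝ => update p.1 k p.2 := by
    rw [measurable_pi_iff]
    intro i
    by_cases hi : i = k
    · subst hi
      simp only [update_self]
      fun_prop
    · simp only [update_of_ne hi]
      fun_prop
  have hF2 : Measurable fun x : Fin d → ℝ => ∫⁻ τ, F (update x k τ) ∂(m k) :=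
    (hF.comp hupd).lintegral_prod_right'
  rw [← lintegral_const_mul _ hF]
  rw [lintegral_eq_lmarginal_univ (fun _ => 0), lintegral_eq_lmarginal_univ (fun _ => 0),
    lmarginal_erase' _ hF2 (Finset.mem_univ k), lmarginal_erase' _ (hF.const_mul _)
    (Finset.mem_univ k)]
  congr 1
  funext x
  simp only [update_idem]
  rw [lintegral_const, lintegral_const_mul]
  · ring
  · exact hF.comp (measurable_update x)

end Pool.Agent.W722.St
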