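import Mathlib
import Pool.Agent.W545.Man.HalfBall
import Pool.Agent.W722.St.Cube
set_option autoImplicit false
open Set Filter Topology MeasureTheory Function
open scoped ENNReal

/-!
The estimate by paths which go up to a layer, move in the direction of one coordinate, and come
back.
-/

namespace Pool.Agent.W722.St

open Pool.Agent.W545.Man (EE FF inj)

variable {d : ℕ}

/-- one-dimensional estimate -/
theorem seg_ab {α β : ℝ} {f f' : ℝ → ℝ} (hf' : ContinuousOn f' (Icc α β))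
    (hd : ∀ t ∈ Icc α β, HasDerivWithinAt f (f' t) (Icc α β) t) {s t : ℝ} (hs : s ∈ Icc α β)
    (ht : t ∈ Icc α β) :
    W545.Man.sq (f s - f t) ≤ ENNReal.ofReal (β - α) * ∫⁻ τ in Icc α β, W545.Man.sq (f' τ) := by
  wlog hst : s ≤ t generalizing s t
  · have := this ht hs (le_of_not_ge hst)
    have e : W545.Man.sq (f s - f t) = W545.Man.sq (f t - f s) := by
      unfold Pool.Agent.W545.Man.sq; congr 1; ring
    rwa [e]
  have hsub : Icc s t ⊆ Icc α β := Icc_subset_Icc hs.1 ht.2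
  have h1 : ∫ τ in s..t, f' τ = f t - f s := by
    apply intervalIntegral.integral_eq_sub_of_hasDerivAt_of_le hst
    · exact fun τ hτ => ((hd τ (hsub hτ)).mono hsub).continuousWithinAt
    · intro x hx
      exact ((hd x (hsub (Ioo_subset_Icc_self hx))).mono hsub).hasDerivAt (Icc_mem_nhds hx.1 hx.2)
    · apply ContinuousOn.intervalIntegrable
      rw [uIcc_of_le hst]
      exact hf'.mono hsub
  have hf'' := hf'.mono hsub
  have hi : IntegrableOn (fun τ => f' τ ^ 2) (Icc s t) := (hf''.pow 2).integrableOn_Icc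
  have hi1 : IntegrableOn f' (Icc s t) := hf''.integrableOn_Icc
  rw [intervalIntegral.integral_of_le hst, ← integral_Icc_eq_integral_Ioc] at h1
  calc W545.Man.sq (f s - f t) ≤ ENNReal.ofReal (t - s) * ∫⁻ τ in Icc s t, W545.Man.sq (f' τ) := by
        unfold Pool.Agent.W545.Man.sq
        rw [← ofReal_integral_eq_lintegral_ofReal hi (Eventually.of_forall fun t => sq_nonneg _),
          ← ENNReal.ofReal_mul (by linarith)]
        apply ENNReal.ofReal_le_ofReal
        rcases hst.eq_or_lt with he | hlt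
        · subst he; simp
        set D := f t - f s with hD
        set c := D / (t - s) with hc
        have hts : 0 < t - s := by linarith
        have h2 : 0 ≤ ∫ τ in Icc s t, (f' τ - c) ^ 2 := integral_nonneg fun t => sq_nonneg _
        have h3 : ∫ τ in Icc s t, (f' τ - c) ^ 2 =
            (∫ τ in Icc s t, f' τ ^ 2) - 2 * c * D + c ^ 2 * (t - s) := by
          have e : ∀ τ, (f' τ - c) ^ 2 = (f' τ ^ 2 - 2 * c * f' τ) + c ^ 2 := fun t => by ring
          simp only [e]
          rw [integral_add, integral_sub hi (hi1.const_mul _), integral_const_mul, h1]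
          · simp [hst]; ring
          · exact hi.sub (hi1.const_mul _)
          · exact integrable_const _
        rw [h3] at h2
        have h4 : c * (t - s) = D := by rw [hc]; field_simp
        have h5 : 0 ≤ (t - s) * ((∫ τ in Icc s t, f' τ ^ 2) - 2 * c * D + c ^ 2 * (t - s)) :=
          mul_nonneg hts.le h2
        have h6 : (t - s) * ((∫ τ in Icc s t, f' τ ^ 2) - 2 * c * D + c ^ 2 * (t - s)) =
            (t - s) * (∫ τ in Icc s t, f' τ ^ 2) - 2 * (c * (t - s)) * D + (c * (t - s)) ^ 2 := by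
          ring
        rw [h6, h4] at h5
        have : (f s - f t) ^ 2 = D ^ 2 := by rw [hD]; ring
        rw [this]
        nlinarith
    _ ≤ _ := by
        gcongr
        · exact ht.2
        · exact hs.1

/-- the point of the half-space with coordinates `s, x` -/
noncomputable def cns (s : ℝ) (x : Fin d → ℝ) : EE d := WithLp.toLp 2 (Fin.cons s x)

theorem cns_zero_coord (s : ℝ) (x : Fin d → ℝ) : cns s x 0 = s := rfl

theorem cns_succ (s : ℝ) (x : Fin d → ℝ) (i : Fin d) : cns s x i.succ = x i := rfl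

theorem cns_line (s : ℝ) (x : Fin d → ℝ) :
    cns s x = cns 0 x + s • EuclideanSpace.single 0 (1:ℝ) := by
  ext i
  refine Fin.cases ?_ (fun j => ?_) i
  · simp [cns_zero_coord]
  · simp [cns_succ]

theorem cns_upd (s : ℝ) (x : Fin d → ℝ) (k : Fin d) (t : ℝ) :
    cns s (update x k t) = cns s (update x k 0) + t • EuclideanSpace.single k.succ (1:ℝ) := by
  ext i
  refine Fin.cases ?_ (fun j => ?_) i
  · have : (0 : Fin (d + 1)) ≠ k.succ := (Fin.succ_ne_zero k).symm
    simp [cns_zero_coord, this]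
  · by_cases hj : j = k
    · subst hj; simp [cns_succ]
    · have : j.succ ≠ k.succ := fun h => hj (Fin.succ_injective _ h)
      simp [cns_succ, hj, this]

theorem cns_meas : Measurable fun p : ℝ × (Fin d → ℝ) => cns p.1 p.2 := by
  have h1 : Measurable fun p : ℝ × (Fin d → ℝ) => (Fin.cons p.1 p.2 : Fin (d + 1) → ℝ) := by
    rw [measurable_pi_iff]
    intro i
    refine Fin.cases ?_ (fun j => ?_) i
    · simp only [Fin.cons_zero]; fun_prop
    · simp only [Fin.cons_succ]; fun_prop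
  exact (PiLp.volume_preserving_toLp (Fin (d + 1))).measurable.comp h1

theorem mp_cns : MeasurePreserving (fun p : ℝ × (Fin d → ℝ) => cns p.1 p.2)
    ((volume : Measure ℝ).prod (volume : Measure (Fin d → ℝ))) (volume : Measure (EE d)) := by
  have h1 := (volume_preserving_piFinSuccAbove (fun _ : Fin (d + 1) => ℝ) 0).symm
  have h2 := PiLp.volume_preserving_toLp (Fin (d + 1))
  have h3 := h2.comp h1
  have e : (fun p : ℝ × (Fin d → ℝ) => (cns p.1 p.2 : EE d)) = (@WithLp.toLp 2 (Fin (d + 1) → ℝ)) ∘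
      ⇑(MeasurableEquiv.piFinSuccAbove (fun _ : Fin (d + 1) => ℝ) 0).symm := by
    funext p
    simp only [comp_apply, cns]
    congr 1
    simp [MeasurableEquiv.piFinSuccAbove]
    rfl
  rw [e]
  exact h3

/-- the cube -/
def bx (a : Fin d → ℝ) (ℓ : ℝ) : Set (Fin d → ℝ) := Set.pi univ fun i => Icc (a i - ℓ) (a i + ℓ)

/-- the part of the slab over the cube -/
def slab (a : Fin d → ℝ) (ℓ : ℝ) (S : Set ℝ) : Set (EE d) :=
  {y | y 0 ∈ S ∧ ∀ i : Fin d, y i.succ ∈ Icc (a i - ℓ) (a i + ℓ)}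

theorem cns_mem_slab {a : Fin d → ℝ} {ℓ : ℝ} {S : Set ℝ} {s : ℝ} {x : Fin d → ℝ} :
    cns s x ∈ slab a ℓ S ↔ s ∈ S ∧ x ∈ bx a ℓ := by
  constructor
  · rintro ⟨h1, h2⟩
    exact ⟨h1, fun i _ => h2 i⟩
  · rintro ⟨h1, h2⟩
    exact ⟨h1, fun i => h2 i trivial⟩

theorem bx_meas (a : Fin d → ℝ) (ℓ : ℝ) : MeasurableSet (bx a ℓ) :=
  MeasurableSet.univ_pi fun _ => measurableSet_Icc

theorem slab_meas (a : Fin d → ℝ) (ℓ : ℝ) {S : Set ℝ} (hS : MeasurableSet S) :
    MeasurableSet (slab a ℓ S) := by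
  have h0 : ∀ i : Fin (d + 1), Measurable fun y : EE d => y i := fun i => by fun_prop
  have : slab a ℓ S = (fun y : EE d => y 0) ⁻¹' S ∩
      ⋂ i : Fin d, (fun y : EE d => y i.succ) ⁻¹' Icc (a i - ℓ) (a i + ℓ) := by
    ext y; simp [slab]
  rw [this]
  exact (h0 0 hS).inter (MeasurableSet.iInter fun i => h0 _ measurableSet_Icc)

theorem slab_closed (a : Fin d → ℝ) (ℓ : ℝ) {S : Set ℝ} (hS : IsClosed S) :
    IsClosed (slab a ℓ S) := by
  have h0 : ∀ i : Fin (d + 1), Continuous fun y : EE d => y i := fun i => by fun_prop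
  have : slab a ℓ S = (fun y : EE d => y 0) ⁻¹' S ∩
      ⋂ i : Fin d, (fun y : EE d => y i.succ) ⁻¹' Icc (a i - ℓ) (a i + ℓ) := by
    ext y; simp [slab]
  rw [this]
  exact (hS.preimage (h0 0)).inter (isClosed_iInter fun i => isClosed_Icc.preimage (h0 _))

theorem slab_tonelli (a : Fin d → ℝ) (ℓ : ℝ) {S : Set ℝ} (hS : MeasurableSet S)
    {F : EE d → ℝ≥0∞} (hF : Measurable F) :
    ∫⁻ s in S, ∫⁻ x in bx a ℓ, F (cns s x) = ∫⁻ y in slab a ℓ S, F y := by
  rw [← mp_cns.setLIntegral_comp_preimage (slab_meas a ℓ hS) hF]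
  have e : (fun p : ℝ × (Fin d → ℝ) => cns p.1 p.2) ⁻¹' slab a ℓ S = S ×ˢ bx a ℓ := by
    ext p
    rw [mem_preimage, cns_mem_slab, mem_prod]
  rw [e, ← Measure.prod_restrict, lintegral_prod]
  exact (hF.comp cns_meas).aemeasurable

/-- the product measure on the cube -/
noncomputable def PB (a : Fin d → ℝ) (ℓ : ℝ) : Measure (Fin d → ℝ) :=
  Measure.pi fun i => (volume : Measure ℝ).restrict (Icc (a i - ℓ) (a i + ℓ))

theorem PB_eq (a : Fin d → ℝ) (ℓ : ℝ) : PB a ℓ = (volume : Measure (Fin d → ℝ)).restrict (bx a ℓ) :=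
  (Measure.restrict_pi_pi (fun _ => (volume : Measure ℝ)) _).symm

theorem PB_ae (a : Fin d → ℝ) (ℓ : ℝ) : ∀ᵐ x ∂(PB a ℓ), x ∈ bx a ℓ := by
  rw [PB_eq]
  exact ae_restrict_mem (bx_meas a ℓ)

theorem upd_mem {a : Fin d → ℝ} {ℓ : ℝ} {x : Fin d → ℝ} (hx : x ∈ bx a ℓ) {k : Fin d} {t : ℝ}
    (ht : t ∈ Icc (a k - ℓ) (a k + ℓ)) : update x k t ∈ bx a ℓ := by
  intro i _
  by_cases hi : i = k
  · subst hi; rwa [update_self]
  · rw [update_of_ne hi]; exact hx i trivial

section Est

variable {a : Fin d → ℝ} {ℓ h : ℝ} {w : EE d → ℝ} {L : EE d → (EE d →L[ℝ] ℝ)}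

theorem vert (hL : ContinuousOn L (slab a ℓ (Icc 0 h)))
    (hw : ∀ y ∈ slab a ℓ (Icc 0 h), HasFDerivWithinAt w (L y) (slab a ℓ (Icc 0 h)) y)
    {x : Fin d → ℝ} (hx : x ∈ bx a ℓ) {r : ℝ} (hr : r ∈ Icc 0 h) :
    W545.Man.sq (w (cns 0 x) - w (cns r x)) ≤ ENNReal.ofReal h * ∫⁻ s in Icc 0 h, W545.Man.sq ‖L (cns s x)‖ := by
  have hmaps : ∀ t ∈ Icc 0 h, cns t x ∈ slab a ℓ (Icc 0 h) := fun t ht => cns_mem_slab.2 ⟨ht, hx⟩
  have hc : Continuous fun t : ℝ => (cns t x : EE d) := by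
    have : (fun t : ℝ => (cns t x : EE d)) = fun t => cns 0 x + t • EuclideanSpace.single 0 (1:ℝ) :=
      funext fun t => cns_line t x
    rw [this]; fun_prop
  have hcurve : ∀ t : ℝ, HasDerivAt (fun t : ℝ => (cns t x : EE d)) (EuclideanSpace.single 0 (1:ℝ)) t := by
    intro t
    have : (fun t : ℝ => (cns t x : EE d)) = fun t => cns 0 x + t • EuclideanSpace.single 0 (1:ℝ) :=
      funext fun t => cns_line t x
    rw [this]
    simpa using ((hasDerivAt_id t).smul_const (EuclideanSpace.single (0 : Fin (d + 1)) (1:ℝ))).const_add (cns 0 x)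
  have h0 : (0:ℝ) ∈ Icc 0 h := ⟨le_rfl, hr.1.trans hr.2⟩
  have h1 := seg_ab (f := fun t => w (cns t x))
    (f' := fun t => L (cns t x) (EuclideanSpace.single 0 (1:ℝ)))
    ((hL.comp hc.continuousOn hmaps).clm_apply continuousOn_const)
    (fun t ht => (hw _ (hmaps t ht)).comp_hasDerivWithinAt t (hcurve t).hasDerivWithinAt hmaps)
    h0 hr
  rw [sub_zero] at h1
  refine h1.trans ?_
  gcongr with s
  unfold Pool.Agent.W545.Man.sq
  apply ENNReal.ofReal_le_ofReal
  have h2 := (L (cns s x)).le_opNorm (EuclideanSpace.single 0 (1:ℝ))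
  rw [PiLp.norm_single, norm_one, mul_one, Real.norm_eq_abs] at h2
  rw [← sq_abs]
  gcongr

theorem horiz (hL : ContinuousOn L (slab a ℓ (Icc 0 h)))
    (hw : ∀ y ∈ slab a ℓ (Icc 0 h), HasFDerivWithinAt w (L y) (slab a ℓ (Icc 0 h)) y)
    {x : Fin d → ℝ} (hx : x ∈ bx a ℓ) {r : ℝ} (hr : r ∈ Icc 0 h) (k : Fin d) {t : ℝ}
    (ht : t ∈ Icc (a k - ℓ) (a k + ℓ)) :
    W545.Man.sq (w (cns r x) - w (cns r (update x k t))) ≤ ENNReal.ofReal (2 * ℓ) *
      ∫⁻ τ in Icc (a k - ℓ) (a k + ℓ),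
        W545.Man.sq (L (cns r (update x k τ)) (EuclideanSpace.single k.succ (1:ℝ))) := by
  have hmaps : ∀ t ∈ Icc (a k - ℓ) (a k + ℓ), cns r (update x k t) ∈ slab a ℓ (Icc 0 h) :=
    fun t ht => cns_mem_slab.2 ⟨hr, upd_mem hx ht⟩
  have hfun : (fun t : ℝ => (cns r (update x k t) : EE d)) =
      fun t => cns r (update x k 0) + t • EuclideanSpace.single k.succ (1:ℝ) :=
    funext fun t => cns_upd r x k t
  have hc : Continuous fun t : ℝ => (cns r (update x k t) : EE d) := by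
    rw [hfun]; fun_prop
  have hcurve : ∀ t : ℝ, HasDerivAt (fun t : ℝ => (cns r (update x k t) : EE d))
      (EuclideanSpace.single k.succ (1:ℝ)) t := by
    intro t
    rw [hfun]
    simpa using ((hasDerivAt_id t).smul_const (EuclideanSpace.single k.succ (1:ℝ))).const_add
      (cns r (update x k 0))
  have h1 := seg_ab (f := fun t => w (cns r (update x k t)))
    (f' := fun t => L (cns r (update x k t)) (EuclideanSpace.single k.succ (1:ℝ)))
    ((hL.comp hc.continuousOn hmaps).clm_apply continuousOn_const)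
    (fun t ht => (hw _ (hmaps t ht)).comp_hasDerivWithinAt t (hcurve t).hasDerivWithinAt hmaps)
    (hx k trivial) ht
  rw [update_eq_self] at h1
  refine h1.trans (le_of_eq ?_)
  congr 2
  ring

theorem sq3 (x y z : ℝ) : W545.Man.sq (x + y + z) ≤ 3 * (W545.Man.sq x + W545.Man.sq y + W545.Man.sq z) := by
  unfold Pool.Agent.W545.Man.sq
  rw [← ENNReal.ofReal_add (by positivity) (by positivity), ← ENNReal.ofReal_add (by positivity)
    (by positivity), ← ENNReal.ofReal_ofNat 3, ← ENNReal.ofReal_mul (by norm_num)]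
  apply ENNReal.ofReal_le_ofReal
  nlinarith [sq_nonneg (x - y), sq_nonneg (x - z), sq_nonneg (y - z)]

end Est

end Pool.Agent.W722.St
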