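import Mathlib
import Pool.Agent.W722.St.Path
set_option autoImplicit false
open Set Filter Topology MeasureTheory Function
open scoped ENNReal

/-!
The estimate for the change in one coordinate of the boundary values.
-/

namespace Pool.Agent.W722.St

open Pool.Agent.W545.Man (EE FF inj)

variable {d : ℕ}

instance pb_fin (a : Fin d → ℝ) (ℓ : ℝ) : IsFiniteMeasure (PB a ℓ) := by
  unfold PB; infer_instance

theorem PB_swap (a : Fin d → ℝ) (ℓ : ℝ) (k : Fin d) {F : (Fin d → ℝ) → ℝ≥0∞} (hF : Measurable F) :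
    ∫⁻ x, ∫⁻ x', F (update x k (x' k)) ∂(PB a ℓ) ∂(PB a ℓ) = PB a ℓ univ * ∫⁻ x, F x ∂(PB a ℓ) := by
  have h := mp_mix (fun i => (volume : Measure ℝ).restrict (Icc (a i - ℓ) (a i + ℓ)))
    (fun i : Fin d => i = k)
  have e1 : ∫⁻ p : (Fin d → ℝ) × (Fin d → ℝ), F p.1 ∂((PB a ℓ).prod (PB a ℓ)) =
      ∫⁻ p : (Fin d → ℝ) × (Fin d → ℝ), F (update p.1 k (p.2 k)) ∂((PB a ℓ).prod (PB a ℓ)) := by
    unfold PB
    rw [← h.lintegral_comp (f := fun p => F p.1) (hF.comp measurable_fst)]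
    congr 1
    funext p
    have : mixS (fun i => i = k) p.1 p.2 = update p.1 k (p.2 k) := by
      funext i
      by_cases hi : i = k
      · subst hi; simp [mixS]
      · simp [mixS, hi]
    simp only [this]
  rw [lintegral_prod (fun p : (Fin d → ℝ) × (Fin d → ℝ) => F p.1)
      (hF.comp measurable_fst).aemeasurable,
    lintegral_prod (fun p : (Fin d → ℝ) × (Fin d → ℝ) => F (update p.1 k (p.2 k)))
      (hF.comp (upd_meas k)).aemeasurable] at e1
  rw [← e1]
  simp only [lintegral_const]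
  rw [lintegral_mul_const _ hF, mul_comm]

variable {a : Fin d → ℝ} {ℓ h : ℝ} {w : EE d → ℝ} {L : EE d → (EE d →L[ℝ] ℝ)}

/-- the estimate with a fixed depth `r` -/
theorem depth_est (hL : ContinuousOn L (slab a ℓ (Icc 0 h)))
    (hw : ∀ y ∈ slab a ℓ (Icc 0 h), HasFDerivWithinAt w (L y) (slab a ℓ (Icc 0 h)) y)
    {r : ℝ} (hr : r ∈ Icc 0 h) (k : Fin d) {G H : EE d → ℝ≥0∞} (hG : Measurable G)
    (hH : Measurable H) (hGe : ∀ y ∈ slab a ℓ (Icc 0 h), G y = W545.Man.sq ‖L y‖)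
    (hHe : ∀ y ∈ slab a ℓ (Icc 0 h), H y = W545.Man.sq (L y (EuclideanSpace.single k.succ (1:ℝ)))) :
    JJ (PB a ℓ) k (fun x => w (cns 0 x)) ≤ 3 * PB a ℓ univ *
      (2 * (ENNReal.ofReal h * ∫⁻ x, (∫⁻ s in Icc 0 h, G (cns s x)) ∂(PB a ℓ)) +
        ENNReal.ofReal (2 * ℓ) ^ 2 * ∫⁻ x, H (cns r x) ∂(PB a ℓ)) := by
  set V : (Fin d → ℝ) → ℝ≥0∞ := fun x => ∫⁻ s in Icc 0 h, G (cns s x) with hV
  have hVm : Measurable V := by
    have : Measurable fun p : (Fin d → ℝ) × ℝ => G (cns p.2 p.1) :=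
      hG.comp (cns_meas.comp measurable_swap)
    exact this.lintegral_prod_right'
  have hHr : Measurable fun x : Fin d → ℝ => H (cns r x) :=
    hH.comp (cns_meas.comp (measurable_const.prodMk measurable_id))
  set W : (Fin d → ℝ) → ℝ≥0∞ := fun x => ∫⁻ τ in Icc (a k - ℓ) (a k + ℓ), H (cns r (update x k τ))
    with hW
  have hWm : Measurable W := by
    have : Measurable fun p : (Fin d → ℝ) × ℝ => H (cns r (update p.1 k p.2)) := by
      apply hHr.comp
      rw [measurable_pi_iff]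
      intro i
      by_cases hi : i = k
      · subst hi
        simp only [update_self]
        fun_prop
      · simp only [update_of_ne hi]
        fun_prop
    exact this.lintegral_prod_right'
  have hVx : ∀ x ∈ bx a ℓ, V x = ∫⁻ s in Icc 0 h, W545.Man.sq ‖L (cns s x)‖ := by
    intro x hx
    apply setLIntegral_congr_fun measurableSet_Icc
    intro s hs
    exact hGe _ (cns_mem_slab.2 ⟨hs, hx⟩)
  have hWx : ∀ x ∈ bx a ℓ, W x = ∫⁻ τ in Icc (a k - ℓ) (a k + ℓ),
        W545.Man.sq (L (cns r (update x k τ)) (EuclideanSpace.single k.succ (1:ℝ))) := by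
    intro x hx
    apply setLIntegral_congr_fun measurableSet_Icc
    intro s hs
    exact hHe _ (cns_mem_slab.2 ⟨hr, upd_mem hx hs⟩)
  have hpt : ∀ x ∈ bx a ℓ, ∀ x' ∈ bx a ℓ, W545.Man.sq (w (cns 0 x) - w (cns 0 (update x k (x' k)))) ≤
      3 * (ENNReal.ofReal h * V x + ENNReal.ofReal (2 * ℓ) * W x +
        ENNReal.ofReal h * V (update x k (x' k))) := by
    intro x hx x' hx'
    have hu := upd_mem hx (k := k) (hx' k trivial)
    have e : w (cns 0 x) - w (cns 0 (update x k (x' k))) = (w (cns 0 x) - w (cns r x)) +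
        (w (cns r x) - w (cns r (update x k (x' k)))) +
        (w (cns r (update x k (x' k))) - w (cns 0 (update x k (x' k)))) := by ring
    rw [e]
    refine (sq3 _ _ _).trans ?_
    gcongr
    · rw [hVx x hx]; exact vert hL hw hx hr
    · rw [hWx x hx]; exact horiz hL hw hx hr k (hx' k trivial)
    · rw [hVx _ hu]
      have := vert hL hw hu hr
      have e2 : W545.Man.sq (w (cns r (update x k (x' k))) - w (cns 0 (update x k (x' k)))) =
          W545.Man.sq (w (cns 0 (update x k (x' k))) - w (cns r (update x k (x' k)))) := by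
        unfold Pool.Agent.W545.Man.sq; congr 1; ring
      rwa [e2]
  have hVu : Measurable fun p : (Fin d → ℝ) × (Fin d → ℝ) => V (update p.1 k (p.2 k)) :=
    hVm.comp (upd_meas k)
  unfold JJ
  calc ∫⁻ x, ∫⁻ x', W545.Man.sq (w (cns 0 x) - w (cns 0 (update x k (x' k)))) ∂(PB a ℓ) ∂(PB a ℓ)
      ≤ ∫⁻ x, ∫⁻ x', 3 * (ENNReal.ofReal h * V x + ENNReal.ofReal (2 * ℓ) * W x +
        ENNReal.ofReal h * V (update x k (x' k))) ∂(PB a ℓ) ∂(PB a ℓ) := by
        apply lintegral_mono_ae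
        filter_upwards [PB_ae a ℓ] with x hx
        apply lintegral_mono_ae
        filter_upwards [PB_ae a ℓ] with x' hx'
        exact hpt x hx x' hx'
    _ = ∫⁻ x, 3 * (PB a ℓ univ * (ENNReal.ofReal h * V x + ENNReal.ofReal (2 * ℓ) * W x) +
        ENNReal.ofReal h * ∫⁻ x', V (update x k (x' k)) ∂(PB a ℓ)) ∂(PB a ℓ) := by
        congr 1
        funext x
        rw [lintegral_const_mul' _ _ (by finiteness), lintegral_add_left measurable_const,
          lintegral_const, lintegral_const_mul' _ _ ENNReal.ofReal_ne_top]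
        ring
    _ = 3 * (PB a ℓ univ * (ENNReal.ofReal h * ∫⁻ x, V x ∂(PB a ℓ) +
        ENNReal.ofReal (2 * ℓ) * ∫⁻ x, W x ∂(PB a ℓ)) +
        ENNReal.ofReal h * (PB a ℓ univ * ∫⁻ x, V x ∂(PB a ℓ))) := by
        have hm2 : Measurable fun x => ENNReal.ofReal h * V x + ENNReal.ofReal (2 * ℓ) * W x :=
          (hVm.const_mul _).add (hWm.const_mul _)
        rw [lintegral_const_mul' _ _ (by finiteness), lintegral_add_left (hm2.const_mul _),
          lintegral_const_mul _ hm2,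
          lintegral_add_left (hVm.const_mul _), lintegral_const_mul _ hVm,
          lintegral_const_mul _ hWm, lintegral_const_mul' _ _ ENNReal.ofReal_ne_top,
          PB_swap a ℓ k hVm]
    _ = 3 * (PB a ℓ univ * (ENNReal.ofReal h * ∫⁻ x, V x ∂(PB a ℓ) +
        ENNReal.ofReal (2 * ℓ) * (ENNReal.ofReal (2 * ℓ) * ∫⁻ x, H (cns r x) ∂(PB a ℓ))) +
        ENNReal.ofReal h * (PB a ℓ univ * ∫⁻ x, V x ∂(PB a ℓ))) := by
        have : ∫⁻ x, W x ∂(PB a ℓ) = ENNReal.ofReal (2 * ℓ) * ∫⁻ x, H (cns r x) ∂(PB a ℓ) := by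
          have h1 := upd_int (fun i => (volume : Measure ℝ).restrict (Icc (a i - ℓ) (a i + ℓ))) k hHr
          have h2 : (volume : Measure ℝ).restrict (Icc (a k - ℓ) (a k + ℓ)) univ =
              ENNReal.ofReal (2 * ℓ) := by
            rw [Measure.restrict_apply_univ, Real.volume_Icc]
            congr 1; ring
          rw [h2] at h1
          exact h1
        rw [this]
    _ = _ := by ring

/-- the estimate with a layer -/
theorem layer_est (hL : ContinuousOn L (slab a ℓ (Icc 0 h)))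
    (hw : ∀ y ∈ slab a ℓ (Icc 0 h), HasFDerivWithinAt w (L y) (slab a ℓ (Icc 0 h)) y)
    (hK : IsCompact (slab a ℓ (Icc 0 h))) {r1 r2 : ℝ} (hr1 : 0 ≤ r1) (hr2 : r2 ≤ h) (k : Fin d) :
    ENNReal.ofReal (r2 - r1) * JJ (PB a ℓ) k (fun x => w (cns 0 x)) ≤ 3 * PB a ℓ univ *
      (2 * (ENNReal.ofReal (r2 - r1) * (ENNReal.ofReal h * ∫⁻ y in slab a ℓ (Icc 0 h), W545.Man.sq ‖L y‖)) +
        ENNReal.ofReal (2 * ℓ) ^ 2 * ∫⁻ y in slab a ℓ (Icc r1 r2),
          W545.Man.sq (L y (EuclideanSpace.single k.succ (1:ℝ)))) := by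
  set K := slab a ℓ (Icc 0 h) with hKdef
  set G : EE d → ℝ≥0∞ := K.indicator fun y => W545.Man.sq ‖L y‖ with hG
  set H : EE d → ℝ≥0∞ := K.indicator fun y => W545.Man.sq (L y (EuclideanSpace.single k.succ (1:ℝ))) with hH
  have hind : ∀ f : EE d → ℝ≥0∞, ContinuousOn f K → Measurable (K.indicator f) := by
    intro f hf
    classical
    have := hf.measurable_piecewise (continuousOn_const (c := (0:ℝ≥0∞)) (s := Kᶜ)) hK.measurableSet
    convert this using 1
    ext y
    by_cases hy : y ∈ K <;> simp [hy]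
  have hGm : Measurable G := by
    apply hind
    unfold Pool.Agent.W545.Man.sq
    exact ENNReal.continuous_ofReal.comp_continuousOn (hL.norm.pow 2)
  have hHm : Measurable H := by
    apply hind
    unfold Pool.Agent.W545.Man.sq
    exact ENNReal.continuous_ofReal.comp_continuousOn ((hL.clm_apply continuousOn_const).pow 2)
  have h1 : ∀ r ∈ Icc r1 r2, JJ (PB a ℓ) k (fun x => w (cns 0 x)) ≤ 3 * PB a ℓ univ *
      (2 * (ENNReal.ofReal h * ∫⁻ x, (∫⁻ s in Icc 0 h, G (cns s x)) ∂(PB a ℓ)) +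
        ENNReal.ofReal (2 * ℓ) ^ 2 * ∫⁻ x, H (cns r x) ∂(PB a ℓ)) := by
    intro r hr
    apply depth_est hL hw ⟨hr1.trans hr.1, hr.2.trans hr2⟩ k hGm hHm
    · intro y hy; exact indicator_of_mem hy _
    · intro y hy; exact indicator_of_mem hy _
  have hHx : Measurable fun r : ℝ => ∫⁻ x, H (cns r x) ∂(PB a ℓ) :=
    (hHm.comp cns_meas).lintegral_prod_right'
  have hvol : volume (Icc r1 r2) = ENNReal.ofReal (r2 - r1) := Real.volume_Icc
  have hPt : PB a ℓ univ ≠ ⊤ := measure_ne_top _ _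
  have eG : ∫⁻ x, (∫⁻ s in Icc 0 h, G (cns s x)) ∂(PB a ℓ) = ∫⁻ y in K, W545.Man.sq ‖L y‖ := by
    rw [PB_eq, lintegral_lintegral_swap]
    · rw [slab_tonelli a ℓ measurableSet_Icc hGm]
      apply setLIntegral_congr_fun hK.measurableSet
      intro y hy
      exact indicator_of_mem hy _
    · exact (hGm.comp (cns_meas.comp measurable_swap)).aemeasurable
  have eH : ∫⁻ r in Icc r1 r2, ∫⁻ x, H (cns r x) ∂(PB a ℓ) =
      ∫⁻ y in slab a ℓ (Icc r1 r2), W545.Man.sq (L y (EuclideanSpace.single k.succ (1:ℝ))) := by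
    rw [PB_eq, slab_tonelli a ℓ measurableSet_Icc hHm]
    apply setLIntegral_congr_fun (slab_meas a ℓ measurableSet_Icc)
    intro y hy
    exact indicator_of_mem (show y ∈ K from ⟨⟨hr1.trans hy.1.1, hy.1.2.trans hr2⟩, hy.2⟩) _
  calc ENNReal.ofReal (r2 - r1) * JJ (PB a ℓ) k (fun x => w (cns 0 x))
      = ∫⁻ _ in Icc r1 r2, JJ (PB a ℓ) k (fun x => w (cns 0 x)) := by
        rw [setLIntegral_const, hvol, mul_comm]
    _ ≤ ∫⁻ r in Icc r1 r2, 3 * PB a ℓ univ *
      (2 * (ENNReal.ofReal h * ∫⁻ x, (∫⁻ s in Icc 0 h, G (cns s x)) ∂(PB a ℓ)) +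
        ENNReal.ofReal (2 * ℓ) ^ 2 * ∫⁻ x, H (cns r x) ∂(PB a ℓ)) :=
        setLIntegral_mono' measurableSet_Icc h1
    _ = 3 * PB a ℓ univ * (2 * (ENNReal.ofReal (r2 - r1) * (ENNReal.ofReal h *
        ∫⁻ x, (∫⁻ s in Icc 0 h, G (cns s x)) ∂(PB a ℓ))) +
        ENNReal.ofReal (2 * ℓ) ^ 2 * ∫⁻ r in Icc r1 r2, ∫⁻ x, H (cns r x) ∂(PB a ℓ)) := by
        rw [lintegral_const_mul' _ _ (by finiteness), lintegral_add_left measurable_const,
          lintegral_const_mul _ hHx, setLIntegral_const, hvol]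
        ring
    _ = _ := by rw [eG, eH]

end Pool.Agent.W722.St
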