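import Mathlib
import Pool.Agent.W722.St.Est
set_option autoImplicit false
open Set Filter Topology MeasureTheory Function
open scoped ENNReal

namespace Pool.Agent.W722.St

open Pool.Agent.W545.Man (EE FF inj)

variable {d : ℕ}

theorem PB_univ (a : Fin d → ℝ) (ℓ : ℝ) : PB a ℓ univ = ENNReal.ofReal (2 * ℓ) ^ d := by
  unfold PB
  rw [Measure.pi_univ]
  simp only [Measure.restrict_apply_univ, Real.volume_Icc]
  have : ∀ i : Fin d, ENNReal.ofReal (a i + ℓ - (a i - ℓ)) = ENNReal.ofReal (2 * ℓ) := by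
    intro i; congr 1; ring
  simp only [this, Finset.prod_const, Finset.card_univ, Fintype.card_fin]

theorem PB_univ_ne (a : Fin d → ℝ) {ℓ : ℝ} (hℓ : 0 < ℓ) : PB a ℓ univ ≠ 0 := by
  rw [PB_univ]
  apply pow_ne_zero
  rw [Ne, ENNReal.ofReal_eq_zero, not_le]
  positivity

theorem JJ_congr (a : Fin d → ℝ) (ℓ : ℝ) (k : Fin d) {v v' : (Fin d → ℝ) → ℝ}
    (h : ∀ x ∈ bx a ℓ, v x = v' x) : JJ (PB a ℓ) k v = JJ (PB a ℓ) k v' := by
  unfold JJ
  apply lintegral_congr_ae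
  filter_upwards [PB_ae a ℓ] with x hx
  apply lintegral_congr_ae
  filter_upwards [PB_ae a ℓ] with x' hx'
  rw [h x hx, h _ (upd_mem hx (hx' k trivial))]

/-- a function on the box is close to a constant if the changes in single coordinates are small -/
theorem box_const (a : Fin d → ℝ) {ℓ : ℝ} (hℓ : 0 < ℓ) {v : (Fin d → ℝ) → ℝ}
    (hv : ContinuousOn v (bx a ℓ)) : ∃ c : ℝ,
    ∫⁻ x in bx a ℓ, W545.Man.sq (v x - c) ≤
      (d : ℝ≥0∞) * (∑ k : Fin d, JJ (PB a ℓ) k v) / PB a ℓ univ := by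
  classical
  set v0 : (Fin d → ℝ) → ℝ := (bx a ℓ).indicator v with hv0
  have hm : Measurable v0 := by
    have := hv.measurable_piecewise (continuousOn_const (c := (0:ℝ)) (s := (bx a ℓ)ᶜ)) (bx_meas a ℓ)
    convert this using 1
    ext y
    by_cases hy : y ∈ bx a ℓ <;> simp [hv0, hy]
  have he : ∀ x ∈ bx a ℓ, v x = v0 x := fun x hx => (indicator_of_mem hx _).symm
  have h0 : PB a ℓ ≠ 0 := by
    intro h
    apply PB_univ_ne a hℓ
    rw [h]; simp
  obtain ⟨c, hc⟩ := exists_const (fun i => (volume : Measure ℝ).restrict (Icc (a i - ℓ) (a i + ℓ)))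
    h0 hm
  refine ⟨c, ?_⟩
  have e1 : ∫⁻ x in bx a ℓ, W545.Man.sq (v x - c) = ∫⁻ x, W545.Man.sq (v0 x - c) ∂(PB a ℓ) := by
    rw [PB_eq]
    apply setLIntegral_congr_fun (bx_meas a ℓ)
    intro x hx
    simp only
    rw [he x hx]
  rw [e1]
  have e2 : ∀ k, JJ (PB a ℓ) k v = JJ (PB a ℓ) k v0 := fun k => JJ_congr a ℓ k he
  simp only [e2]
  exact hc

end Pool.Agent.W722.St
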