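import Mathlib
import Pool.Agent.W545.Man.Chart
set_option autoImplicit false
open Set Filter Topology MeasureTheory
open scoped ENNReal Manifold ContDiff
open Pool.Agent.W545.Man

/-!
The metric `g_X` obtained from a metric `g` and a vector field `X`: its inverse is
`ρ⁻¹ (g⁻¹ + X ⊗ X)` with `ρ = (1 + |X|²)^(1/(d-1))`.
-/

namespace Pool.Agent.W722.St

variable {d : ℕ} {Ω : Type*} [TopologicalSpace Ω] [ChartedSpace (EuclideanHalfSpace (d + 1)) Ω]
  [IsManifold (𝓡∂ (d + 1)) ∞ Ω]

/-- the scalar product at `z` on the model space -/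
noncomputable def gi (g : RMetric d Ω) (z : Ω) : EE d →L[ℝ] EE d →L[ℝ] ℝ := g.inner z

theorem gi_symm (g : RMetric d Ω) (z : Ω) (v w : EE d) : gi g z v w = gi g z w v := g.symm z v w

theorem gi_pos (g : RMetric d Ω) (z : Ω) {v : EE d} (hv : v ≠ 0) : 0 < gi g z v v := g.pos z v hv

theorem gi_nonneg (g : RMetric d Ω) (z : Ω) (v : EE d) : 0 ≤ gi g z v v := by
  by_cases hv : v = 0
  · subst hv; simp
  · exact (gi_pos g z hv).le

/-- Cauchy-Schwarz -/
theorem gi_cs (g : RMetric d Ω) (z : Ω) (v w : EE d) :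
    gi g z v w ^ 2 ≤ gi g z v v * gi g z w w := by
  by_cases hw : w = 0
  · subst hw; simp
  have hw' := gi_pos g z hw
  have h := gi_nonneg g z (v - (gi g z v w / gi g z w w) • w)
  have e : gi g z (v - (gi g z v w / gi g z w w) • w) (v - (gi g z v w / gi g z w w) • w) =
      gi g z v v - gi g z v w ^ 2 / gi g z w w := by
    simp only [map_sub, map_smul, sub_apply, smul_apply, smul_eq_mul]
    rw [gi_symm g z w v]
    field_simp
    ring
  rw [e, sub_nonneg, div_le_iff₀ hw'] at h
  exact h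

/-- coordinates of the vector `X z` in the chart at `c` -/
noncomputable def vco (X : Ω → EE d) (c z : Ω) : EE d :=
  tangentCoordChange (𝓡∂ (d + 1)) z c z (X z)

/-- a smooth vector field -/
structure VField (d : ℕ) (Ω : Type*) [TopologicalSpace Ω]
    [ChartedSpace (EuclideanHalfSpace (d + 1)) Ω] [IsManifold (𝓡∂ (d + 1)) ∞ Ω] where
  vec : Ω → EE d
  smooth : ∀ c : Ω, ContDiffOn ℝ ∞ (fun y => vco vec c ((ph d c).symm y)) (ph d c).target

theorem coeff_eq (g : RMetric d Ω) (c z : Ω) (v w : EE d) : coeff g.inner c z v w =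
    gi g z (tangentCoordChange (𝓡∂ (d + 1)) c z z v) (tangentCoordChange (𝓡∂ (d + 1)) c z z w) := rfl

theorem coeff_vco (g : RMetric d Ω) (X : Ω → EE d) {c z : Ω} (hz : z ∈ (ph d c).source) (v : EE d) :
    coeff g.inner c z (vco X c z) v =
      gi g z (X z) (tangentCoordChange (𝓡∂ (d + 1)) c z z v) := by
  rw [coeff_eq, vco, tcc_inv' hz]

theorem coeff_vco2 (g : RMetric d Ω) (X : Ω → EE d) {c z : Ω} (hz : z ∈ (ph d c).source) :
    coeff g.inner c z (vco X c z) (vco X c z) = gi g z (X z) (X z) := by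
  rw [coeff_vco g X hz, vco, tcc_inv' hz]

/-- `|X|²` -/
noncomputable def nX (g : RMetric d Ω) (X : Ω → EE d) (z : Ω) : ℝ := gi g z (X z) (X z)

theorem nX_nonneg (g : RMetric d Ω) (X : Ω → EE d) (z : Ω) : 0 ≤ nX g X z := gi_nonneg g z _

/-- the conformal factor -/
noncomputable def rho (g : RMetric d Ω) (X : Ω → EE d) (z : Ω) : ℝ :=
  (1 + nX g X z) ^ (1 / ((d : ℝ) - 1))

theorem rho_pos (g : RMetric d Ω) (X : Ω → EE d) (z : Ω) : 0 < rho g X z := by
  have := nX_nonneg g X z
  exact Real.rpow_pos_of_pos (by linarith) _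

/-- the scalar product of `g_X` -/
noncomputable def innerX (g : RMetric d Ω) (X : Ω → EE d) (z : Ω) : EE d →L[ℝ] EE d →L[ℝ] ℝ :=
  rho g X z • (gi g z - (1 + nX g X z)⁻¹ • (gi g z (X z)).smulRight (gi g z (X z)))

theorem innerX_apply (g : RMetric d Ω) (X : Ω → EE d) (z : Ω) (v w : EE d) :
    innerX g X z v w = rho g X z * (gi g z v w - (1 + nX g X z)⁻¹ * (gi g z (X z) v * gi g z (X z) w)) := by
  simp only [innerX, smul_apply, sub_apply, ContinuousLinearMap.smulRight_apply, smul_eq_mul]

theorem smooth_coeff2 (g : RMetric d Ω) (c : Ω) {ξ η : EE d → EE d} {s : Set (EE d)}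
    (hs : s ⊆ (ph d c).target) (hξ : ContDiffOn ℝ ∞ ξ s) (hη : ContDiffOn ℝ ∞ η s) :
    ContDiffOn ℝ ∞ (fun y => coeff g.inner c ((ph d c).symm y) (ξ y) (η y)) s := by
  have e : (fun y => coeff g.inner c ((ph d c).symm y) (ξ y) (η y)) =
      fun y => ∑ i, ∑ j, ξ y i * η y j * gram g c ((ph d c).symm y) i j := by
    funext y; exact coeff_sum g c _ _ _
  rw [e]
  refine ContDiffOn.sum fun i _ => ContDiffOn.sum fun j _ => ?_
  have h1 : ContDiffOn ℝ ∞ (fun y => ξ y i) s := (contDiffOn_euclidean.1 hξ) i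
  have h2 : ContDiffOn ℝ ∞ (fun y => η y j) s := (contDiffOn_euclidean.1 hη) j
  exact (h1.mul h2).mul ((g.smooth c _ _).mono hs)

theorem smooth_nX (g : RMetric d Ω) (X : VField d Ω) (c : Ω) :
    ContDiffOn ℝ ∞ (fun y => nX g X.vec ((ph d c).symm y)) (ph d c).target := by
  apply (smooth_coeff2 g c subset_rfl (X.smooth c) (X.smooth c)).congr
  intro y hy
  rw [coeff_vco2 g X.vec ((ph d c).map_target hy)]
  rfl

theorem smooth_rho (g : RMetric d Ω) (X : VField d Ω) (c : Ω) :
    ContDiffOn ℝ ∞ (fun y => rho g X.vec ((ph d c).symm y)) (ph d c).target := by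
  apply ContDiffOn.rpow_const_of_ne
  · exact contDiffOn_const.add (smooth_nX g X c)
  · intro y _
    have := nX_nonneg g X.vec ((ph d c).symm y)
    positivity

theorem innerX_symm (g : RMetric d Ω) (X : Ω → EE d) (z : Ω) (v w : EE d) :
    innerX g X z v w = innerX g X z w v := by
  rw [innerX_apply, innerX_apply, gi_symm g z v w, mul_comm (gi g z (X z) v)]

theorem innerX_pos (g : RMetric d Ω) (X : Ω → EE d) (z : Ω) {v : EE d} (hv : v ≠ 0) :
    0 < innerX g X z v v := by
  rw [innerX_apply]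
  apply mul_pos (rho_pos g X z)
  have h1 := gi_cs g z (X z) v
  have h2 := gi_pos g z (v := v) hv
  have h3 := nX_nonneg g X z
  change _ ≤ nX g X z * _ at h1
  set N := nX g X z
  have h4 : (1 + N)⁻¹ * (gi g z (X z) v * gi g z (X z) v) ≤ (1 + N)⁻¹ * (N * gi g z v v) := by
    apply mul_le_mul_of_nonneg_left _ (by positivity)
    rw [← pow_two]; exact h1
  have h5 : (1 + N)⁻¹ * (N * gi g z v v) < gi g z v v := by
    rw [inv_mul_lt_iff₀ (by positivity)]
    nlinarith
  linarith

/-- the metric `g_X` -/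
noncomputable def gX (g : RMetric d Ω) (X : VField d Ω) : RMetric d Ω where
  inner z := innerX g X.vec z
  symm z v w := innerX_symm g X.vec z v w
  pos z v hv := innerX_pos g X.vec z hv
  smooth c v w := by
    have hm : ∀ y ∈ (ph d c).target,
        coeff (fun z => innerX g X.vec z) c ((ph d c).symm y) v w = rho g X.vec ((ph d c).symm y) *
          (coeff g.inner c ((ph d c).symm y) v w - (1 + nX g X.vec ((ph d c).symm y))⁻¹ *
            (coeff g.inner c ((ph d c).symm y) (vco X.vec c ((ph d c).symm y)) v *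
            coeff g.inner c ((ph d c).symm y) (vco X.vec c ((ph d c).symm y)) w)) := by
      intro y hy
      have hz := (ph d c).map_target hy
      rw [coeff_vco g X.vec hz, coeff_vco g X.vec hz]
      exact innerX_apply g X.vec _ _ _
    refine ContDiffOn.congr ?_ hm
    apply (smooth_rho g X c).mul
    apply (g.smooth c v w).sub
    apply ContDiffOn.mul
    · apply ContDiffOn.inv
      · exact contDiffOn_const.add (smooth_nX g X c)
      · intro y _
        have := nX_nonneg g X.vec ((ph d c).symm y)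
        positivity
    · exact (smooth_coeff2 g c subset_rfl (X.smooth c) contDiffOn_const).mul
        (smooth_coeff2 g c subset_rfl (X.smooth c) contDiffOn_const)

theorem gX_apply (g : RMetric d Ω) (X : VField d Ω) (z : Ω) (v w : EE d) :
    gi (gX g X) z v w = rho g X.vec z *
      (gi g z v w - (1 + nX g X.vec z)⁻¹ * (gi g z (X.vec z) v * gi g z (X.vec z) w)) :=
  innerX_apply g X.vec z v w

theorem gX_eq_of_zero (g : RMetric d Ω) (X : VField d Ω) {z : Ω} (h : X.vec z = 0) :
    (gX g X).inner z = g.inner z := by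
  show innerX g X.vec z = gi g z
  ext v w
  rw [innerX_apply]
  simp [h, rho, nX]

/-- algebraic core of the lower bound of the energy density -/
theorem alg_key {p q N m M : ℝ} (hN : 0 < N) (hM : 0 ≤ M) :
    (p / N) ^ 2 * N + 2 * (p / N) * q * m + q ^ 2 * M - (1 + M)⁻¹ * ((p / N) * m + q * M) ^ 2 ≤
      p ^ 2 / N + q ^ 2 := by
  set t := p / N * m
  have e : (p / N) ^ 2 * N = p ^ 2 / N := by field_simp
  rw [e]
  have h1 : 0 < 1 + M := by linarith
  have h2 : 2 * q * t + q ^ 2 * M - q ^ 2 ≤ (1 + M)⁻¹ * (t + q * M) ^ 2 := by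
    rw [le_inv_mul_iff₀ h1]
    nlinarith [sq_nonneg (q - t)]
  have e2 : 2 * (p / N) * q * m = 2 * q * t := by ring
  rw [e2]
  linarith

/-- lower bound for the energy density of `g_X` -/
theorem gradSq_gX (g : RMetric d Ω) (X : VField d Ω) (u : Ω → ℝ) (z : Ω) :
    gradSq g u z + ENNReal.ofReal ((dif u z : EE d →L[ℝ] ℝ) (X.vec z) ^ 2) ≤
      ENNReal.ofReal (rho g X.vec z) * gradSq (gX g X) u z := by
  set L : EE d →L[ℝ] ℝ := dif u z with hL
  have hρ := rho_pos g X.vec z
  unfold gradSq
  rw [ENNReal.iSup_add]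
  apply iSup_le
  intro v'
  let v : EE d := v'
  change ENNReal.ofReal (L v ^ 2 / gi g z v v) + ENNReal.ofReal (L (X.vec z) ^ 2) ≤
    ENNReal.ofReal (rho g X.vec z) * ⨆ w : EE d, ENNReal.ofReal (L w ^ 2 / gi (gX g X) z w w)
  have hM := nX_nonneg g X.vec z
  set M := nX g X.vec z with hMdef
  set q := L (X.vec z) with hq
  -- choose the vector
  obtain ⟨w, hw1, hw2⟩ : ∃ w : EE d, L w = L v ^ 2 / gi g z v v + q ^ 2 ∧
      gi (gX g X) z w w ≤ rho g X.vec z * (L v ^ 2 / gi g z v v + q ^ 2) := by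
    by_cases hv : v = 0
    · refine ⟨q • X.vec z, ?_, ?_⟩
      · rw [hv]; simp [← hq]; ring
      · rw [gX_apply]
        gcongr
        rw [hv]
        simp only [map_smul, smul_apply, smul_eq_mul, map_zero, ne_eq, OfNat.ofNat_ne_zero,
          not_false_eq_true, zero_pow, div_zero, zero_add]
        have e : gi g z (X.vec z) (X.vec z) = M := rfl
        rw [e, ← hMdef]
        have h1 : 0 < 1 + M := by linarith
        have : q * (q * M) - (1 + M)⁻¹ * (q * M * (q * M)) = q ^ 2 * (M * (1 + M)⁻¹) := by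
          field_simp
          ring
        rw [this]
        have h2 : M * (1 + M)⁻¹ ≤ 1 := by
          rw [mul_inv_le_iff₀ h1]; linarith
        nlinarith [sq_nonneg q]
    · have hN := gi_pos g z hv
      set N := gi g z v v with hNdef
      set m := gi g z (X.vec z) v with hm
      refine ⟨(L v / N) • v + q • X.vec z, ?_, ?_⟩
      · simp only [map_add, map_smul, smul_eq_mul, ← hq]
        ring
      · rw [gX_apply]
        gcongr
        simp only [map_add, map_smul, add_apply, smul_apply, smul_eq_mul]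
        rw [gi_symm g z v (X.vec z), ← hm, ← hNdef]
        have e : gi g z (X.vec z) (X.vec z) = M := rfl
        rw [e, ← hMdef]
        have h1 := alg_key (p := L v) (q := q) (m := m) hN hM
        refine le_trans (le_of_eq ?_) h1
        ring
  have hS : 0 ≤ L v ^ 2 / gi g z v v := div_nonneg (sq_nonneg _) (gi_nonneg g z v)
  set S := L v ^ 2 / gi g z v v with hSdef
  rw [← ENNReal.ofReal_add hS (sq_nonneg q)]
  by_cases hS0 : S + q ^ 2 = 0
  · rw [hS0]; simp
  have hSp : 0 < S + q ^ 2 := lt_of_le_of_ne (by positivity) (Ne.symm hS0)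
  have hw0 : w ≠ 0 := by
    rintro rfl
    rw [map_zero] at hw1
    exact hS0 hw1.symm
  have hwp := gi_pos (gX g X) z hw0
  calc ENNReal.ofReal (S + q ^ 2) ≤ ENNReal.ofReal (rho g X.vec z * (L w ^ 2 / gi (gX g X) z w w)) := by
        apply ENNReal.ofReal_le_ofReal
        rw [hw1, mul_div_assoc', le_div_iff₀ hwp]
        calc (S + q ^ 2) * gi (gX g X) z w w ≤ (S + q ^ 2) * (rho g X.vec z * (S + q ^ 2)) := by
              gcongr
          _ = _ := by ring
    _ = ENNReal.ofReal (rho g X.vec z) * ENNReal.ofReal (L w ^ 2 / gi (gX g X) z w w) :=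
        ENNReal.ofReal_mul hρ.le
    _ ≤ _ := by
        gcongr
        exact le_iSup (fun w : EE d => ENNReal.ofReal (L w ^ 2 / gi (gX g X) z w w)) w

end Pool.Agent.W722.St
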