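import Mathlib
import Pool.Agent.W545.Man.SigmaOne
import Pool.Agent.W722.St.Vec
set_option autoImplicit false
open Set Filter Topology MeasureTheory
open scoped ENNReal Manifold ContDiff Matrix
open Pool.Agent.W545.Man

/-!
The volume of the metric `g_X` is `ρ` times the volume of `g`; the energy increases.
-/

namespace Pool.Agent.W722.St

variable {d : ℕ} {Ω : Type*} [TopologicalSpace Ω] [ChartedSpace (EuclideanHalfSpace (d + 1)) Ω]
  [IsManifold (𝓡∂ (d + 1)) ∞ Ω]

theorem rho_pow (hd : 2 ≤ d) (g : RMetric d Ω) (X : Ω → EE d) (z : Ω) :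
    rho g X z ^ (d - 1) = 1 + nX g X z := by
  have h1 := nX_nonneg g X z
  have hd' : ((d - 1 : ℕ) : ℝ) = (d : ℝ) - 1 := by
    rw [Nat.cast_sub (by omega)]; simp
  have h2 : (0 : ℝ) < (d : ℝ) - 1 := by
    have : (2 : ℝ) ≤ d := by exact_mod_cast hd
    linarith
  unfold rho
  rw [← Real.rpow_natCast, ← Real.rpow_mul (by linarith), hd', one_div, inv_mul_cancel₀ h2.ne',
    Real.rpow_one]

theorem gram_sum_vec (g : RMetric d Ω) (c z : Ω) (v : EE d) (j : Fin (d + 1)) :
    coeff g.inner c z v (EuclideanSpace.single j 1) = ∑ k, gram g c z j k * v k := by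
  rw [coeff_sum]
  refine Finset.sum_congr rfl fun i _ => ?_
  rw [Finset.sum_eq_single j]
  · simp only [PiLp.single_apply, if_true]
    have : gram g c z i j = gram g c z j i := coeff_symm g c z _ _
    rw [this]; ring
  · intro k _ hk
    simp [hk]
  · simp

theorem det_gX (hd : 2 ≤ d) (g : RMetric d Ω) (X : VField d Ω) {c z : Ω}
    (hz : z ∈ (ph d c).source) :
    (gram (gX g X) c z).det = rho g X.vec z ^ 2 * (gram g c z).det := by
  set G := gram g c z with hG
  set ξ := vco X.vec c z with hξ
  set M := nX g X.vec z with hM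
  set r := rho g X.vec z with hr
  have hM0 : 0 ≤ M := nX_nonneg g X.vec z
  set b : Fin (d + 1) → ℝ := fun j => coeff g.inner c z ξ (EuclideanSpace.single j 1) with hb
  have hbi : ∀ i, b i = ∑ k, G i k * ξ k := fun i => gram_sum_vec g c z ξ i
  have hbM : ∑ k, b k * ξ k = M := by
    have h1 : coeff g.inner c z ξ ξ = M := coeff_vco2 g X.vec hz
    rw [← h1, coeff_sum, Finset.sum_comm]
    refine Finset.sum_congr rfl fun k _ => ?_
    rw [hbi, Finset.sum_mul]
    refine Finset.sum_congr rfl fun i _ => ?_
    have : gram g c z i k = gram g c z k i := coeff_symm g c z _ _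
    rw [this]
    ring
  have e1 : gram (gX g X) c z = r • (G * (1 + Matrix.replicateCol Unit (fun k => -(1 + M)⁻¹ * ξ k) *
      Matrix.replicateRow Unit b)) := by
    ext i j
    have h1 : gram (gX g X) c z i j = r * (G i j - (1 + M)⁻¹ * (b i * b j)) := by
      have h2 : gram (gX g X) c z i j = r *
          (coeff g.inner c z (EuclideanSpace.single i 1) (EuclideanSpace.single j 1) -
          (1 + M)⁻¹ * (coeff g.inner c z ξ (EuclideanSpace.single i 1) *
            coeff g.inner c z ξ (EuclideanSpace.single j 1))) := by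
        rw [hξ, coeff_vco g X.vec hz, coeff_vco g X.vec hz]
        exact innerX_apply g X.vec _ _ _
      exact h2
    rw [h1, Matrix.smul_apply, smul_eq_mul, Matrix.mul_add, Matrix.mul_one, Matrix.add_apply,
      ← Matrix.mul_assoc]
    congr 1
    rw [sub_eq_add_neg]
    congr 1
    rw [Matrix.mul_apply, Finset.univ_unique, Finset.sum_singleton, Matrix.replicateRow_apply,
      Matrix.mul_apply]
    simp only [Matrix.replicateCol_apply]
    rw [hbi i]
    have : ∑ x, G i x * (-(1 + M)⁻¹ * ξ x) = -(1 + M)⁻¹ * ∑ x, G i x * ξ x := by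
      rw [Finset.mul_sum]
      refine Finset.sum_congr rfl fun k _ => ?_
      ring
    rw [this]
    ring
  rw [e1, Matrix.det_smul, Matrix.det_mul, Matrix.det_one_add_replicateCol_mul_replicateRow,
    Fintype.card_fin]
  have e2 : b ⬝ᵥ (fun k => -(1 + M)⁻¹ * ξ k) = -(1 + M)⁻¹ * M := by
    rw [← hbM, dotProduct, Finset.mul_sum]
    refine Finset.sum_congr rfl fun k _ => ?_
    ring
  rw [e2]
  have e3 : r ^ (d + 1) = r ^ 2 * (1 + M) := by
    rw [← rho_pow hd g X.vec z, ← hr, ← pow_add]
    congr 1; omega
  rw [e3]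
  have : (0:ℝ) < 1 + M := by linarith
  field_simp
  ring

theorem rho_cont (g : RMetric d Ω) (X : VField d Ω) : Continuous (rho g X.vec) := by
  rw [continuous_iff_continuousAt]
  intro c
  have h1 : ContinuousOn (fun z => rho g X.vec ((ph d c).symm (ph d c z))) (ph d c).source :=
    (smooth_rho g X c).continuousOn.comp (continuousOn_extChartAt c)
      (fun z hz => (ph d c).map_source hz)
  have h2 : ContinuousOn (rho g X.vec) (ph d c).source := by
    apply h1.congr
    intro z hz
    simp only
    rw [(ph d c).left_inv hz]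
  exact h2.continuousAt (extChartAt_source_mem_nhds c)

theorem ind_meas {E : Type*} [TopologicalSpace E] [MeasurableSpace E] [BorelSpace E] {T : Set E}
    (hT : MeasurableSet T) {f : E → ℝ≥0∞} (hf : ContinuousOn f T) : Measurable (T.indicator f) := by
  classical
  have := hf.measurable_piecewise (continuousOn_const (c := (0:ℝ≥0∞)) (s := Tᶜ)) hT
  convert this using 1
  ext y
  by_cases hy : y ∈ T <;> simp [hy]

omit [IsManifold (𝓡∂ (d + 1)) ∞ Ω] in
theorem target_meas (c : Ω) : MeasurableSet (ph d c).target := by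
  rw [extChartAt_target]
  apply MeasurableSet.inter
  · exact ((chartAt _ c).open_target.preimage (𝓡∂ (d + 1)).continuous_symm).measurableSet
  · exact (𝓡∂ (d + 1)).isClosed_range.measurableSet

variable [MeasurableSpace Ω] [BorelSpace Ω]

/-- the volume of `g_X` -/
noncomputable def muX (g : RMetric d Ω) (X : VField d Ω) (μ : Measure Ω) : Measure Ω :=
  μ.withDensity fun z => ENNReal.ofReal (rho g X.vec z)

theorem dens_meas (g : RMetric d Ω) (X : VField d Ω) :
    Measurable fun z => ENNReal.ofReal (rho g X.vec z) :=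
  (rho_cont g X).measurable.ennreal_ofReal

theorem isVolume_gX (hd : 2 ≤ d) {g : RMetric d Ω} (X : VField d Ω) {μ : Measure Ω}
    (hμ : IsVolume g μ) : IsVolume (gX g X) (muX g X μ) := by
  intro c h hh
  have hsm : MeasurableSet (chartAt (EuclideanHalfSpace (d + 1)) c).source :=
    (chartAt (EuclideanHalfSpace (d + 1)) c).open_source.measurableSet
  set H : EE d → ℝ≥0∞ := fun y => (ph d c).target.indicator
    (fun y => ENNReal.ofReal (rho g X.vec ((ph d c).symm y))) y * h y with hH
  have hHm : Measurable H := by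
    apply Measurable.mul _ hh
    have h1 : ContinuousOn (fun y => ENNReal.ofReal (rho g X.vec ((ph d c).symm y)))
        (ph d c).target :=
      ENNReal.continuous_ofReal.comp_continuousOn (smooth_rho g X c).continuousOn
    exact ind_meas (target_meas c) h1
  unfold muX
  rw [restrict_withDensity hsm, lintegral_withDensity_eq_lintegral_mul_non_measurable _
    (dens_meas g X) (Eventually.of_forall fun _ => ENNReal.ofReal_lt_top)]
  have e1 : ∫⁻ x in (chartAt (EuclideanHalfSpace (d + 1)) c).source,
      ((fun z => ENNReal.ofReal (rho g X.vec z)) * fun x => h (extChartAt (𝓡∂ (d + 1)) c x)) x ∂μ =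
      ∫⁻ x in (chartAt (EuclideanHalfSpace (d + 1)) c).source, H (extChartAt (𝓡∂ (d + 1)) c x) ∂μ := by
    apply setLIntegral_congr_fun hsm
    intro x hx
    rw [← extChartAt_source (𝓡∂ (d + 1))] at hx
    simp only [Pi.mul_apply, hH]
    rw [indicator_of_mem ((ph d c).map_source hx), (ph d c).left_inv hx]
  rw [e1, hμ c H hHm]
  apply setLIntegral_congr_fun (target_meas c)
  intro y hy
  have hz := (ph d c).map_target hy
  simp only [hH]
  rw [indicator_of_mem hy, det_gX hd g X hz, Real.sqrt_mul (sq_nonneg _), Real.sqrt_sq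
    (rho_pos g X.vec _).le, ENNReal.ofReal_mul (rho_pos g X.vec _).le]
  ring

/-- the energy for `g_X` -/
theorem energy_gX (g : RMetric d Ω) (X : VField d Ω) (μ : Measure Ω) (u : Ω → ℝ) :
    energy g μ u + ∫⁻ z, ENNReal.ofReal ((dif u z : EE d →L[ℝ] ℝ) (X.vec z) ^ 2) ∂μ ≤
      energy (gX g X) (muX g X μ) u := by
  unfold energy muX
  rw [lintegral_withDensity_eq_lintegral_mul_non_measurable _
    (dens_meas g X) (Eventually.of_forall fun _ => ENNReal.ofReal_lt_top)]
  refine (le_lintegral_add _ _).trans ?_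
  apply lintegral_mono
  intro z
  exact gradSq_gX g X u z

end Pool.Agent.W722.St
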