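import Mathlib
import Pool.Agent.W722.St.Vol
set_option autoImplicit false
open Set Filter Topology MeasureTheory
open scoped ENNReal Manifold ContDiff
open Pool.Agent.W545.Man

/-!
Vector fields supported in a compact subset of a chart.
-/

namespace Pool.Agent.W722.St

variable {d : ℕ} {Ω : Type*} [TopologicalSpace Ω] [ChartedSpace (EuclideanHalfSpace (d + 1)) Ω]
  [IsManifold (𝓡∂ (d + 1)) ∞ Ω]

/-- the vector field with coordinates `η e` in the chart at `c` -/
noncomputable def cvec (c : Ω) (η : EE d → ℝ) (e : EE d) (z : Ω) : EE d :=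
  open Classical in
  if z ∈ (ph d c).source then
    η (ph d c z) • tangentCoordChange (𝓡∂ (d + 1)) c z z e
  else 0

theorem cvec_of_mem {c z : Ω} (hz : z ∈ (ph d c).source) (η : EE d → ℝ) (e : EE d) :
    cvec c η e z = η (ph d c z) • tangentCoordChange (𝓡∂ (d + 1)) c z z e := by
  unfold cvec; rw [if_pos hz]

theorem cvec_zero {c z : Ω} {S : Set (EE d)} {η : EE d → ℝ} (hη : ∀ y, y ∉ S → η y = 0) (e : EE d)
    (hz : z ∉ UK d c S) : cvec c η e z = 0 := by
  unfold cvec
  split_ifs with h
  · rw [hη, zero_smul]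
    intro h2
    exact hz ⟨h, h2⟩
  · rfl

theorem vco_cvec {c c' z : Ω} (hz : z ∈ (ph d c).source) (hz' : z ∈ (ph d c').source)
    (η : EE d → ℝ) (e : EE d) : vco (cvec c η e) c' z =
      η (ph d c z) • tangentCoordChange (𝓡∂ (d + 1)) c c' z e := by
  unfold vco
  rw [cvec_of_mem hz, map_smul, tangentCoordChange_comp ⟨⟨hz, mem_extChartAt_source z⟩, hz'⟩]

theorem cvec_smooth [T2Space Ω] {c : Ω} {S : Set (EE d)} (hS : IsCompact S)
    (hSt : S ⊆ (ph d c).target) {η : EE d → ℝ} (hη : ∀ y, y ∉ S → η y = 0)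
    (hsm : ContDiff ℝ ∞ η) (e : EE d) (c' : Ω) :
    ContDiffOn ℝ ∞ (fun y => vco (cvec c η e) c' ((ph d c').symm y)) (ph d c').target := by
  intro y0 hy0
  set z0 := (ph d c').symm y0 with hz0
  have hz0' : z0 ∈ (ph d c').source := (ph d c').map_target hy0
  by_cases hz : z0 ∈ (ph d c).source
  · -- the set where both charts are defined
    set D : Set (EE d) := ((ph d c').symm ≫ ph d c).source with hD
    have hD' : D = (ph d c').target ∩ (ph d c').symm ⁻¹' (ph d c).source := by
      rw [hD, PartialEquiv.trans_source, PartialEquiv.symm_source]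
    have hyD : y0 ∈ D := by rw [hD']; exact ⟨hy0, hz⟩
    have hDn : D ∈ 𝓝[(ph d c').target] y0 := by
      have h1 : D ∈ 𝓝[range (𝓡∂ (d + 1))] y0 :=
        (𝓡∂ (d + 1)).extendCoordChange_source_mem_nhdsWithin hyD
      exact nhdsWithin_mono _ (extChartAt_target_subset_range c') h1
    -- transition map
    have hθ : ContDiffOn ℝ ∞ (ph d c ∘ (ph d c').symm) D :=
      (𝓡∂ (d + 1)).contDiffOn_extendCoordChange
        (IsManifold.chart_mem_maximalAtlas c') (IsManifold.chart_mem_maximalAtlas c)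
    have : IsManifold (𝓡∂ (d + 1)) (((⊤ : ℕ∞) : WithTop ℕ∞) + 1) Ω := by
      rw [show ((⊤ : ℕ∞) : WithTop ℕ∞) + 1 = ((⊤ : ℕ∞) : WithTop ℕ∞) from rfl]
      infer_instance
    have hA : ContDiffOn ℝ ∞ (fderivWithin ℝ (ph d c' ∘ (ph d c).symm) (range (𝓡∂ (d + 1))))
        ((ph d c).symm ≫ ph d c').source :=
      contDiffOn_fderiv_coord_change (I := 𝓡∂ (d + 1)) (n := ∞) (M := Ω)
        (achart (EuclideanHalfSpace (d + 1)) c) (achart (EuclideanHalfSpace (d + 1)) c')
    have hmaps : MapsTo (ph d c ∘ (ph d c').symm) D ((ph d c).symm ≫ ph d c').source := by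
      intro y hy
      rw [hD'] at hy
      rw [PartialEquiv.trans_source, PartialEquiv.symm_source]
      refine ⟨(ph d c).map_source hy.2, ?_⟩
      show (ph d c).symm ((ph d c) ((ph d c').symm y)) ∈ (ph d c').source
      rw [(ph d c).left_inv hy.2]
      exact (ph d c').map_target hy.1
    have hF : ContDiffOn ℝ ∞ (fun y => η (ph d c ((ph d c').symm y)) •
        (fderivWithin ℝ (ph d c' ∘ (ph d c).symm) (range (𝓡∂ (d + 1)))
          (ph d c ((ph d c').symm y))) e) D :=
      (hsm.comp_contDiffOn hθ).smul ((hA.comp hθ hmaps).clm_apply contDiffOn_const)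
    have hF2 : ContDiffWithinAt ℝ ∞ (fun y => vco (cvec c η e) c' ((ph d c').symm y)) D y0 := by
      apply (hF y0 hyD).congr
      · intro y hy
        rw [hD'] at hy
        rw [vco_cvec hy.2 ((ph d c').map_target hy.1)]
        rfl
      · rw [vco_cvec hz hz0']
        rfl
    exact hF2.mono_of_mem_nhdsWithin hDn
  · -- the field vanishes near `z0`
    have hcl : IsClosed (UK d c S) := (UK_compact hSt hS).isClosed
    have hz0S : z0 ∉ UK d c S := fun h => hz h.1
    have hn : (ph d c').symm ⁻¹' (UK d c S)ᶜ ∈ 𝓝[(ph d c').target] y0 :=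
      (continuousOn_extChartAt_symm c' y0 hy0).preimage_mem_nhdsWithin
        (hcl.isOpen_compl.mem_nhds hz0S)
    have : ContDiffWithinAt ℝ ∞ (fun _ : EE d => (0 : EE d)) (ph d c').target y0 :=
      contDiffWithinAt_const
    apply this.congr_of_eventuallyEq
    · filter_upwards [hn] with y hy
      unfold vco
      rw [cvec_zero hη e hy, map_zero]
    · unfold vco
      rw [← hz0, cvec_zero hη e hz0S, map_zero]

/-- the vector field as a structure -/
noncomputable def cfield [T2Space Ω] {c : Ω} {S : Set (EE d)} (hS : IsCompact S)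
    (hSt : S ⊆ (ph d c).target) {η : EE d → ℝ} (hη : ∀ y, y ∉ S → η y = 0)
    (hsm : ContDiff ℝ ∞ η) (e : EE d) : VField d Ω where
  vec := cvec c η e
  smooth := cvec_smooth hS hSt hη hsm e

end Pool.Agent.W722.St
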