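import Mathlib
import Pool.Agent.W722.St.Layer
import Pool.Agent.W722.St.BoxC
set_option autoImplicit false
open Set Filter Topology MeasureTheory
open scoped ENNReal Manifold ContDiff
open Pool.Agent.W545.Man

/-!
Preparations for the main step: boundary points in charts, depth of a slab, volume of a slab.
-/

namespace Pool.Agent.W722.St

variable {d : ℕ}

theorem cns_cont : Continuous fun p : ℝ × (Fin d → ℝ) => (cns p.1 p.2 : EE d) := by
  have h1 : Continuous fun p : ℝ × (Fin d → ℝ) => (Fin.cons p.1 p.2 : Fin (d + 1) → ℝ) := by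
    rw [continuous_pi_iff]
    intro i
    refine Fin.cases ?_ (fun j => ?_) i
    · simp only [Fin.cons_zero]; fun_prop
    · simp only [Fin.cons_succ]; fun_prop
  exact (PiLp.continuous_toLp 2 _).comp h1

theorem cns_self (y : EE d) : cns (y 0) (fun i => y i.succ) = y := by
  ext i
  refine Fin.cases ?_ (fun j => ?_) i
  · rfl
  · rfl

theorem slab_image (a : Fin d → ℝ) (ℓ : ℝ) (S : Set ℝ) :
    slab a ℓ S = (fun p : ℝ × (Fin d → ℝ) => (cns p.1 p.2 : EE d)) '' (S ×ˢ bx a ℓ) := by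
  ext y
  constructor
  · intro hy
    exact ⟨(y 0, fun i => y i.succ), ⟨hy.1, fun i _ => hy.2 i⟩, cns_self y⟩
  · rintro ⟨p, hp, rfl⟩
    exact cns_mem_slab.2 hp

theorem bx_compact (a : Fin d → ℝ) (ℓ : ℝ) : IsCompact (bx a ℓ) :=
  isCompact_univ_pi fun _ => isCompact_Icc

theorem slab_compact (a : Fin d → ℝ) (ℓ α β : ℝ) : IsCompact (slab a ℓ (Icc α β)) := by
  rw [slab_image]
  exact (isCompact_Icc.prod (bx_compact a ℓ)).image cns_cont

theorem slab_vol (a : Fin d → ℝ) (ℓ α β : ℝ) :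
    volume (slab a ℓ (Icc α β)) = ENNReal.ofReal (β - α) * ENNReal.ofReal (2 * ℓ) ^ d := by
  have h := slab_tonelli a ℓ (S := Icc α β) measurableSet_Icc (F := fun _ => 1) measurable_const
  simp only [setLIntegral_one] at h
  rw [← h]
  rw [setLIntegral_const, Real.volume_Icc, mul_comm, ← PB_univ a ℓ, PB_eq,
    Measure.restrict_apply_univ]

theorem slab_mono {a : Fin d → ℝ} {ℓ ℓ' : ℝ} (h : ℓ ≤ ℓ') {S S' : Set ℝ} (hS : S ⊆ S') :
    slab a ℓ S ⊆ slab a ℓ' S' := by
  intro y hy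
  exact ⟨hS hy.1, fun i => ⟨by linarith [(hy.2 i).1], by linarith [(hy.2 i).2]⟩⟩

variable {Ω : Type*} [TopologicalSpace Ω] [ChartedSpace (EuclideanHalfSpace (d + 1)) Ω]
  [IsManifold (𝓡∂ (d + 1)) ∞ Ω]

/-- boundary points in charts -/
theorem bd_iff {c z : Ω} (hz : z ∈ (ph d c).source) :
    z ∈ (𝓡∂ (d + 1)).boundary Ω ↔ (ph d c z) 0 = 0 := by
  have h1 : (𝓡∂ (d + 1)).IsInteriorPoint z ↔ ph d c z ∈ interior (ph d c).target :=
    (𝓡∂ (d + 1)).isInteriorPoint_iff_of_mem_atlas (n := ∞) (by simp) (chart_mem_atlas _ c)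
      (by rwa [extChartAt_source] at hz)
  have h2 : ph d c z ∈ interior (ph d c).target ↔ 0 < (ph d c z) 0 := by
    constructor
    · intro h
      have := interior_mono (extChartAt_target_subset_range c) h
      rw [interior_range_modelWithCornersEuclideanHalfSpace (d + 1)] at this
      exact this
    · intro h
      have h3 : ph d c z ∈ interior (range (𝓡∂ (d + 1))) := by
        rw [interior_range_modelWithCornersEuclideanHalfSpace (d + 1)]; exact h
      have h4 := target_nhds ((ph d c).map_source hz)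
      rw [nhdsWithin_eq_nhds.2 (mem_interior_iff_mem_nhds.1 h3)] at h4
      exact mem_interior_iff_mem_nhds.2 h4
  have h3 : z ∈ (𝓡∂ (d + 1)).boundary Ω ↔ ¬ (𝓡∂ (d + 1)).IsInteriorPoint z :=
    (𝓡∂ (d + 1)).isBoundaryPoint_iff_not_isInteriorPoint z
  rw [h3, h1, h2, not_lt]
  have := ph_coord_nonneg (d := d) c z
  constructor
  · intro h; exact le_antisymm h this
  · intro h; exact h.le

/-- a slab which is so thin that it lies in a neighbourhood of the boundary -/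
theorem depth {c : Ω} {a : Fin d → ℝ} {ℓ h0 : ℝ} (hh0 : 0 < h0)
    (hK : slab a ℓ (Icc 0 h0) ⊆ (ph d c).target) {V : Set Ω} (hV : IsOpen V)
    (hbV : (𝓡∂ (d + 1)).boundary Ω ⊆ V) : ∃ h : ℝ, 0 < h ∧ h ≤ h0 ∧
      ∀ y ∈ slab a ℓ (Icc 0 h), (ph d c).symm y ∈ V := by
  set K := slab a ℓ (Icc 0 h0) with hKdef
  have hKc : IsCompact K := slab_compact a ℓ 0 h0
  set B := K ∩ (ph d c).symm ⁻¹' Vᶜ with hB
  have hBc : IsCompact B := by
    apply hKc.of_isClosed_subset _ inter_subset_left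
    exact ((continuousOn_extChartAt_symm c).mono hK).preimage_isClosed_of_isClosed hKc.isClosed
      hV.isClosed_compl
  by_cases hne : B.Nonempty
  · have hcont : ContinuousOn (fun y : EE d => y 0) B := by fun_prop
    obtain ⟨y1, hy1, hmin⟩ := hBc.exists_isMinOn hne hcont
    have hpos : 0 < y1 0 := by
      rcases hy1.1.1.1.eq_or_lt with h | h
      · exfalso
        apply hy1.2
        apply hbV
        rw [bd_iff ((ph d c).map_target (hK hy1.1)), (ph d c).right_inv (hK hy1.1)]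
        exact h.symm
      · exact h
    refine ⟨min h0 (y1 0 / 2), lt_min hh0 (by linarith), min_le_left _ _, ?_⟩
    intro y hy
    by_contra hcon
    have hyB : y ∈ B := ⟨slab_mono le_rfl (Icc_subset_Icc_right (min_le_left _ _)) hy, hcon⟩
    have h1 : y1 0 ≤ y 0 := hmin hyB
    have h2 : y 0 ≤ y1 0 / 2 := hy.1.2.trans (min_le_right _ _)
    linarith
  · refine ⟨h0, hh0, le_rfl, ?_⟩
    intro y hy
    by_contra hcon
    exact hne ⟨y, hy, hcon⟩

/-- a cutoff function -/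
theorem cutoff (a : Fin d → ℝ) {ℓ h : ℝ} (hℓ : 0 < ℓ) (hh : 0 < h) : ∃ f : EE d → ℝ,
    ContDiff ℝ ∞ f ∧ (∀ y, 0 ≤ f y ∧ f y ≤ 1) ∧ (∀ y ∉ slab a (2 * ℓ) (Icc (h / 4) h), f y = 0) ∧
    ∀ y ∈ slab a ℓ (Icc (h / 2) (3 * h / 4)), f y = 1 := by
  set U : Set (EE d) := {y | y 0 ∈ Ioo (h / 4) h ∧ ∀ i : Fin d, y i.succ ∈ Ioo (a i - 2 * ℓ) (a i + 2 * ℓ)}
    with hU
  have hUo : IsOpen U := by
    have h0 : ∀ i : Fin (d + 1), Continuous fun y : EE d => y i := fun i => by fun_prop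
    have : U = (fun y : EE d => y 0) ⁻¹' Ioo (h / 4) h ∩
        ⋂ i : Fin d, (fun y : EE d => y i.succ) ⁻¹' Ioo (a i - 2 * ℓ) (a i + 2 * ℓ) := by
      ext y; simp [hU]
    rw [this]
    exact (isOpen_Ioo.preimage (h0 0)).inter (isOpen_iInter_of_finite fun i => isOpen_Ioo.preimage (h0 _))
  have hT : IsClosed (slab a ℓ (Icc (h / 2) (3 * h / 4))) := slab_closed a ℓ isClosed_Icc
  have hdisj : Disjoint Uᶜ (slab a ℓ (Icc (h / 2) (3 * h / 4))) := by
    rw [disjoint_compl_left_iff_subset]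
    intro y hy
    refine ⟨⟨by linarith [hy.1.1], by linarith [hy.1.2]⟩, fun i => ⟨?_, ?_⟩⟩
    · linarith [(hy.2 i).1]
    · linarith [(hy.2 i).2]
  obtain ⟨f, hf0, hf1, hf⟩ := exists_contMDiffMap_zero_one_of_isClosed (n := ⊤) 𝓘(ℝ, EE d)
    hUo.isClosed_compl hT hdisj
  refine ⟨f, f.contMDiff.contDiff, fun y => ⟨(hf y).1, (hf y).2⟩, ?_, ?_⟩
  · intro y hy
    apply hf0
    intro hyU
    apply hy
    exact ⟨Ioo_subset_Icc_self hyU.1, fun i => Ioo_subset_Icc_self (hyU.2 i)⟩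
  · intro y hy
    exact hf1 hy

end Pool.Agent.W722.St
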