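import Mathlib
import Pool.Agent.W722.St.Prep
set_option autoImplicit false
open Set Filter Topology MeasureTheory
open scoped ENNReal Manifold ContDiff
open Pool.Agent.W545.Man

/-!
The main step: modify a metric in a thin layer.
-/

namespace Pool.Agent.W722.St

variable {d : ℕ} {Ω : Type*} [TopologicalSpace Ω] [ChartedSpace (EuclideanHalfSpace (d + 1)) Ω]
  [IsManifold (𝓡∂ (d + 1)) ∞ Ω]

theorem rho_le (hd : 2 ≤ d) (g : RMetric d Ω) (X : Ω → EE d) (z : Ω) :
    rho g X z ≤ 1 + nX g X z := by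
  have h1 := nX_nonneg g X z
  unfold rho
  have hd' : (2 : ℝ) ≤ d := by exact_mod_cast hd
  conv_rhs => rw [← Real.rpow_one (1 + nX g X z)]
  apply Real.rpow_le_rpow_of_exponent_le (by linarith)
  rw [div_le_one (by linarith)]
  linarith

theorem rho_one (g : RMetric d Ω) {X : Ω → EE d} {z : Ω} (h : X z = 0) : rho g X z = 1 := by
  unfold rho nX
  rw [h]; simp

theorem nX_zero (g : RMetric d Ω) {X : Ω → EE d} {z : Ω} (h : X z = 0) : nX g X z = 0 := by
  unfold nX
  rw [h]; simp

theorem gradSq_congr {g g0 : RMetric d Ω} {z : Ω} (h : g.inner z = g0.inner z) (u : Ω → ℝ) :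
    gradSq g u z = gradSq g0 u z := by
  unfold gradSq; rw [h]

variable [MeasurableSpace Ω]

/-- `g` is equal to `g0` near the boundary -/
def Near (g0 : RMetric d Ω) (μ0 : Measure Ω) (g : RMetric d Ω) (μ : Measure Ω) : Prop :=
  IsVolume g μ ∧ ∃ V : Set Ω, IsOpen V ∧ (𝓡∂ (d + 1)).boundary Ω ⊆ V ∧
    (∀ z ∈ V, g.inner z = g0.inner z) ∧ μ.restrict V = μ0.restrict V

theorem Near.refl {g0 : RMetric d Ω} {μ0 : Measure Ω} (h : IsVolume g0 μ0) : Near g0 μ0 g0 μ0 :=
  ⟨h, univ, isOpen_univ, subset_univ _, fun _ _ => rfl, rfl⟩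

variable [BorelSpace Ω] [T2Space Ω]

omit [TopologicalSpace Ω] [BorelSpace Ω] [T2Space Ω] in
/-- the restrictions of the measures to subsets agree -/
theorem restrict_sub {μ μ0 : Measure Ω} {V A : Set Ω} (h : μ.restrict V = μ0.restrict V)
    (hA : MeasurableSet A) (hAV : A ⊆ V) : μ.restrict A = μ0.restrict A := by
  have h1 : (μ.restrict V).restrict A = (μ0.restrict V).restrict A := by rw [h]
  rwa [Measure.restrict_restrict hA, Measure.restrict_restrict hA, inter_eq_left.2 hAV] at h1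

theorem step (hd : 2 ≤ d) {g0 : RMetric d Ω} {μ0 : Measure Ω} (hμ0 : IsVolume g0 μ0) {c : Ω}
    {a : Fin d → ℝ} {ℓ h0 : ℝ} (hℓ : 0 < ℓ) (hh0 : 0 < h0)
    (hK : slab a (2 * ℓ) (Icc 0 h0) ⊆ (ph d c).target) : ∃ C : ℝ≥0∞, C ≠ ⊤ ∧
    ∀ δ : ℝ, 0 < δ → ∀ (k : Fin d) (g : RMetric d Ω) (μ : Measure Ω), Near g0 μ0 g μ →
      ∃ (g' : RMetric d Ω) (μ' : Measure Ω), Near g0 μ0 g' μ' ∧
        (∀ u, energy g μ u ≤ energy g' μ' u) ∧
        μ' univ ≤ μ univ + C * ENNReal.ofReal δ⁻¹ ∧
        ∀ u : Ω → ℝ, ContMDiff (𝓡∂ (d + 1)) 𝓘(ℝ, ℝ) ∞ u →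
          JJ (PB a ℓ) k (fun x => loc d c u (cns 0 x)) ≤ C * ENNReal.ofReal δ * energy g' μ' u := by
  set K0 := slab a (2 * ℓ) (Icc 0 h0) with hK0
  have hK0c : IsCompact K0 := slab_compact _ _ _ _
  obtain ⟨a1, b1, ha1, hb1, H1⟩ := coeff_bounds g0 c hK0c hK
  obtain ⟨a2, b2, ha2, hb2, H2⟩ := vol_bounds g0 c hK hK0c
  obtain ⟨a3, ha3, H3⟩ := energy_lower g0 c hK hK0c
  set CA : ℝ≥0∞ := ENNReal.ofReal b1 * (ENNReal.ofReal b2 * ENNReal.ofReal (2 * (2 * ℓ)) ^ d) with hCA
  set CB : ℝ≥0∞ := 3 * PB a ℓ univ * (2 * (ENNReal.ofReal a3)⁻¹ +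
    4 * ENNReal.ofReal (2 * ℓ) ^ 2 * (ENNReal.ofReal a2)⁻¹) with hCB
  have ha3' : ENNReal.ofReal a3 ≠ 0 := by rw [Ne, ENNReal.ofReal_eq_zero, not_le]; exact ha3
  have ha2' : ENNReal.ofReal a2 ≠ 0 := by rw [Ne, ENNReal.ofReal_eq_zero, not_le]; exact ha2
  refine ⟨CA + CB, ?_, ?_⟩
  · have h1 : (ENNReal.ofReal a3)⁻¹ ≠ ⊤ := ENNReal.inv_ne_top.2 ha3'
    have h2 : (ENNReal.ofReal a2)⁻¹ ≠ ⊤ := ENNReal.inv_ne_top.2 ha2'
    rw [hCA, hCB]
    finiteness
  intro δ hδ k g μ hnear
  obtain ⟨hμ, V, hVo, hbV, hVg, hVμ⟩ := hnear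
  -- the depth
  set h1 := min h0 δ with hh1
  have hh1p : 0 < h1 := lt_min hh0 hδ
  have hK1 : slab a (2 * ℓ) (Icc 0 h1) ⊆ (ph d c).target :=
    (slab_mono le_rfl (Icc_subset_Icc_right (min_le_left _ _))).trans hK
  obtain ⟨h, hh, hhh1, hhV⟩ := depth hh1p hK1 hVo hbV
  have hhh0 : h ≤ h0 := hhh1.trans (min_le_left _ _)
  have hhδ : h ≤ δ := hhh1.trans (min_le_right _ _)
  obtain ⟨f, hfs, hf01, hf0, hf1⟩ := cutoff a hℓ hh
  set S := slab a (2 * ℓ) (Icc (h / 4) h) with hS
  set T := slab a ℓ (Icc (h / 2) (3 * h / 4)) with hT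
  have hSc : IsCompact S := slab_compact _ _ _ _
  have hTc : IsCompact T := slab_compact _ _ _ _
  have hSK : S ⊆ K0 := slab_mono le_rfl (Icc_subset_Icc (by linarith) hhh0)
  have hTS : T ⊆ S := slab_mono (by linarith) (Icc_subset_Icc (by linarith) (by linarith))
  have hSh : S ⊆ slab a (2 * ℓ) (Icc 0 h) := slab_mono le_rfl (Icc_subset_Icc_left (by linarith))
  have hUV : ∀ A ⊆ slab a (2 * ℓ) (Icc 0 h), UK d c A ⊆ V := by
    rintro A hA x ⟨hx1, hx2⟩
    have := hhV _ (hA hx2)
    rwa [(ph d c).left_inv hx1] at this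
  set κ : ℝ := (δ * h)⁻¹ with hκ
  have hκ0 : 0 < κ := by positivity
  set η : EE d → ℝ := fun y => √κ * f y with hη
  have hη0 : ∀ y, y ∉ S → η y = 0 := by
    intro y hy; rw [hη]; simp only; rw [hf0 y hy, mul_zero]
  have hηs : ContDiff ℝ ∞ η := contDiff_const.mul hfs
  set e : EE d := EuclideanSpace.single k.succ (1:ℝ) with he
  have hen : ‖e‖ = 1 := by rw [he, PiLp.norm_single, norm_one]
  set X : VField d Ω := cfield hSc (hSK.trans hK) hη0 hηs e with hX
  have hXz : ∀ z, z ∉ UK d c S → X.vec z = 0 := fun z hz => cvec_zero hη0 e hz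
  have hUS : MeasurableSet (UK d c S) := UK_meas (hSK.trans hK) hSc
  have hUSc : IsClosed (UK d c S) := (UK_compact (hSK.trans hK) hSc).isClosed
  have hUSV : UK d c S ⊆ V := hUV S hSh
  have hμS : μ.restrict (UK d c S) = μ0.restrict (UK d c S) := restrict_sub hVμ hUS hUSV
  have hnear' : Near g0 μ0 (gX g X) (muX g X μ) := by
    refine ⟨isVolume_gX hd X hμ, V ∩ (UK d c S)ᶜ, hVo.inter hUSc.isOpen_compl, ?_, ?_, ?_⟩
    · intro z hz
      refine ⟨hbV hz, fun hzS => ?_⟩
      have h2 := (bd_iff hzS.1).1 hz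
      have h3 : h / 4 ≤ (ph d c z) 0 := hzS.2.1.1
      linarith
    · intro z hz
      rw [gX_eq_of_zero g X (hXz z hz.2)]
      exact hVg z hz.1
    · have hVm : MeasurableSet (V ∩ (UK d c S)ᶜ) := hVo.measurableSet.inter hUS.compl
      unfold muX
      rw [restrict_withDensity hVm]
      have h2 : (μ.restrict (V ∩ (UK d c S)ᶜ)).withDensity (fun z => ENNReal.ofReal (rho g X.vec z)) =
          (μ.restrict (V ∩ (UK d c S)ᶜ)).withDensity 1 := by
        apply withDensity_congr_ae
        filter_upwards [ae_restrict_mem hVm] with z hz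
        rw [rho_one g (hXz z hz.2)]
        simp
      rw [h2, withDensity_one]
      exact restrict_sub hVμ hVm inter_subset_left
  have hen' : ∀ u, energy g μ u ≤ energy (gX g X) (muX g X μ) u := fun u =>
    le_self_add.trans (energy_gX g X μ u)
  refine ⟨gX g X, muX g X μ, hnear', hen', ?_, ?_⟩
  · -- volume
    have e1 : muX g X μ univ ≤ μ univ + ∫⁻ z, ENNReal.ofReal (nX g X.vec z) ∂μ := by
      unfold muX
      rw [withDensity_apply _ MeasurableSet.univ, setLIntegral_univ]
      calc ∫⁻ z, ENNReal.ofReal (rho g X.vec z) ∂μ ≤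
          ∫⁻ z, (1 + ENNReal.ofReal (nX g X.vec z)) ∂μ := by
            apply lintegral_mono
            intro z
            simp only
            rw [← ENNReal.ofReal_one, ← ENNReal.ofReal_add zero_le_one (nX_nonneg _ _ _)]
            exact ENNReal.ofReal_le_ofReal (rho_le hd g X.vec z)
        _ = _ := by
            rw [lintegral_add_left measurable_const, lintegral_one]
    refine e1.trans ?_
    gcongr
    have e2 : ∫⁻ z, ENNReal.ofReal (nX g X.vec z) ∂μ =
        ∫⁻ z in UK d c S, ENNReal.ofReal (nX g X.vec z) ∂μ0 := by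
      rw [← hμS, ← lintegral_indicator hUS]
      congr 1
      funext z
      by_cases hz : z ∈ UK d c S
      · rw [indicator_of_mem hz]
      · rw [indicator_of_notMem hz, nX_zero g (hXz z hz), ENNReal.ofReal_zero]
    have e3 : ∀ z ∈ UK d c S, ENNReal.ofReal (nX g X.vec z) ≤ ENNReal.ofReal (κ * b1) := by
      intro z hz
      apply ENNReal.ofReal_le_ofReal
      have h2 : nX g X.vec z = coeff g0.inner c z (vco X.vec c z) (vco X.vec c z) := by
        rw [coeff_vco2 g0 X.vec hz.1]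
        have : gi g z = gi g0 z := hVg z (hUSV hz)
        unfold nX
        rw [this]
      have h3 : vco X.vec c z = η (ph d c z) • e := by
        have := vco_cvec hz.1 hz.1 η e
        rw [tangentCoordChange_self hz.1] at this
        exact this
      rw [h2, h3]
      simp only [map_smul, smul_apply, smul_eq_mul]
      have h4 := (H1 (ph d c z) (hSK hz.2) e).2
      rw [(ph d c).left_inv hz.1, hen, one_pow, mul_one] at h4
      have h5 : η (ph d c z) * η (ph d c z) ≤ κ := by
        have hf := hf01 (ph d c z)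
        have h6 : η (ph d c z) * η (ph d c z) = κ * (f (ph d c z) ^ 2) := by
          simp only [hη]
          rw [mul_mul_mul_comm, Real.mul_self_sqrt hκ0.le, pow_two]
        rw [h6]
        have : f (ph d c z) ^ 2 ≤ 1 := pow_le_one₀ hf.1 hf.2
        nlinarith
      have h7 : 0 ≤ coeff g0.inner c z e e := by
        have := coeff_pos g0 hz.1 (v := e) (by rintro h; rw [h, norm_zero] at hen; norm_num at hen)
        exact this.le
      calc η (ph d c z) * (η (ph d c z) * coeff g0.inner c z e e) =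
          (η (ph d c z) * η (ph d c z)) * coeff g0.inner c z e e := by ring
        _ ≤ κ * b1 := by gcongr
    have e4 : μ0 (UK d c S) ≤ ENNReal.ofReal b2 * volume S := by
      have h2 := (H2 μ0 hμ0 S hSK hSc (fun _ => 1) (fun _ => 1) continuousOn_const
        (fun _ _ => rfl)).2
      rwa [setLIntegral_one, setLIntegral_one] at h2
    rw [e2]
    calc ∫⁻ z in UK d c S, ENNReal.ofReal (nX g X.vec z) ∂μ0 ≤
        ∫⁻ _ in UK d c S, ENNReal.ofReal (κ * b1) ∂μ0 := setLIntegral_mono' hUS e3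
      _ = ENNReal.ofReal (κ * b1) * μ0 (UK d c S) := setLIntegral_const _ _
      _ ≤ ENNReal.ofReal (κ * b1) * (ENNReal.ofReal b2 *
          (ENNReal.ofReal h * ENNReal.ofReal (2 * (2 * ℓ)) ^ d)) := by
          gcongr
          refine e4.trans ?_
          gcongr
          rw [hS, slab_vol]
          gcongr
          linarith
      _ = CA * ENNReal.ofReal δ⁻¹ := by
          have h2 : ENNReal.ofReal (κ * b1) * ENNReal.ofReal h = ENNReal.ofReal b1 * ENNReal.ofReal δ⁻¹ := by
            rw [← ENNReal.ofReal_mul (by positivity), ← ENNReal.ofReal_mul hb1.le]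
            congr 1
            rw [hκ]
            field_simp
          rw [hCA]
          calc _ = (ENNReal.ofReal (κ * b1) * ENNReal.ofReal h) * (ENNReal.ofReal b2 *
              ENNReal.ofReal (2 * (2 * ℓ)) ^ d) := by ring
            _ = _ := by rw [h2]; ring
      _ ≤ _ := by
          gcongr
          exact le_self_add
  · -- the estimate
    intro u hu
    set E := energy (gX g X) (muX g X μ) u with hE
    set L := Dloc d c u with hL
    set Q := slab a ℓ (Icc 0 h) with hQ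
    have hQc : IsCompact Q := slab_compact _ _ _ _
    have hQK : Q ⊆ K0 := slab_mono (by linarith) (Icc_subset_Icc_right hhh0)
    have hQt := hQK.trans hK
    have hLc : ContinuousOn L Q := (Dloc_cont hu c).mono hQt
    have hwd : ∀ y ∈ Q, HasFDerivWithinAt (loc d c u) (L y) Q y := fun y hy =>
      (Dloc_has hu (hQt hy)).mono (hQt.trans (extChartAt_target_subset_range c))
    have hI1 : ∫⁻ y in Q, W545.Man.sq ‖L y‖ ≤ (ENNReal.ofReal a3)⁻¹ * E := by
      apply le_inv_mul' ha3' ENNReal.ofReal_ne_top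
      refine (H3 μ0 hμ0 Q hQK hQc u hu).trans ?_
      have hQm : MeasurableSet (UK d c Q) := UK_meas hQt hQc
      have hQV : UK d c Q ⊆ V := hUV Q (slab_mono (by linarith) subset_rfl)
      rw [← restrict_sub hVμ hQm hQV]
      calc ∫⁻ x in UK d c Q, gradSq g0 u x ∂μ = ∫⁻ x in UK d c Q, gradSq g u x ∂μ := by
            apply setLIntegral_congr_fun hQm
            intro x hx
            exact (gradSq_congr (hVg x (hQV hx)) u).symm
        _ ≤ energy g μ u := setLIntegral_le_lintegral _ _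
        _ ≤ E := hen' u
    have hTK := hTS.trans hSK
    have hTt := hTK.trans hK
    have hTm : MeasurableSet (UK d c T) := UK_meas hTt hTc
    have hTV : UK d c T ⊆ V := hUV T (hTS.trans hSh)
    have hI2 : ∫⁻ y in T, W545.Man.sq (L y e) ≤ (ENNReal.ofReal κ * ENNReal.ofReal a2)⁻¹ * E := by
      have hκ' : ENNReal.ofReal κ ≠ 0 := by rw [Ne, ENNReal.ofReal_eq_zero, not_le]; exact hκ0
      apply le_inv_mul' (mul_ne_zero hκ' ha2') (by finiteness)
      have hcont : ContinuousOn (fun y => W545.Man.sq (L y e)) T := by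
        unfold Pool.Agent.W545.Man.sq
        exact ENNReal.continuous_ofReal.comp_continuousOn
          ((((Dloc_cont hu c).mono hTt).clm_apply continuousOn_const).pow 2)
      have h2 := (H2 μ0 hμ0 T hTK hTc (fun x => W545.Man.sq (L (ph d c x) e)) _ hcont (fun _ _ => rfl)).1
      calc ENNReal.ofReal κ * ENNReal.ofReal a2 * ∫⁻ y in T, W545.Man.sq (L y e)
          = ENNReal.ofReal κ * (ENNReal.ofReal a2 * ∫⁻ y in T, W545.Man.sq (L y e)) := by ring
        _ ≤ ENNReal.ofReal κ * ∫⁻ x in UK d c T, W545.Man.sq (L (ph d c x) e) ∂μ0 := by gcongr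
        _ = ∫⁻ x in UK d c T, ENNReal.ofReal κ * W545.Man.sq (L (ph d c x) e) ∂μ := by
            rw [← restrict_sub hVμ hTm hTV, lintegral_const_mul' _ _ ENNReal.ofReal_ne_top]
        _ = ∫⁻ x in UK d c T, ENNReal.ofReal ((dif u x : EE d →L[ℝ] ℝ) (X.vec x) ^ 2) ∂μ := by
            apply setLIntegral_congr_fun hTm
            intro x hx
            simp only
            have hdiff : MDifferentiableAt (𝓡∂ (d + 1)) 𝓘(ℝ, ℝ) u x :=
              (hu x).mdifferentiableAt (by simp)
            have h3 : L (ph d c x) e =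
                (dif u x : EE d →L[ℝ] ℝ) (tangentCoordChange (𝓡∂ (d + 1)) c x x e) := by
              rw [hL, Dloc_eq hx.1 hdiff]; rfl
            have h4 : X.vec x = η (ph d c x) • tangentCoordChange (𝓡∂ (d + 1)) c x x e :=
              cvec_of_mem hx.1 η e
            have h5 : η (ph d c x) = √κ := by
              simp only [hη]; rw [hf1 _ hx.2, mul_one]
            have h6 : (dif u x : EE d →L[ℝ] ℝ) (X.vec x) = √κ * L (ph d c x) e := by
              rw [h4, h5, h3]
              exact ContinuousLinearMap.map_smul (dif u x : EE d →L[ℝ] ℝ) _ _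
            rw [h6, mul_pow, Real.sq_sqrt hκ0.le, ENNReal.ofReal_mul hκ0.le]
            rfl
        _ ≤ ∫⁻ x, ENNReal.ofReal ((dif u x : EE d →L[ℝ] ℝ) (X.vec x) ^ 2) ∂μ :=
            setLIntegral_le_lintegral _ _
        _ ≤ E := le_add_self.trans (energy_gX g X μ u)
    have hmain := layer_est (a := a) (ℓ := ℓ) (h := h) hLc hwd hQc (r1 := h / 2) (r2 := 3 * h / 4)
      (by linarith) (by linarith) k
    have e0 : 3 * h / 4 - h / 2 = h / 4 := by ring
    rw [e0] at hmain
    have hq0 : ENNReal.ofReal (h / 4) ≠ 0 := by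
      rw [Ne, ENNReal.ofReal_eq_zero, not_le]; positivity
    set JJu := JJ (PB a ℓ) k (fun x => loc d c u (cns 0 x)) with hJJu
    have hκinv : (ENNReal.ofReal κ * ENNReal.ofReal a2)⁻¹ =
        ENNReal.ofReal (h / 4) * (4 * ENNReal.ofReal δ) * (ENNReal.ofReal a2)⁻¹ := by
      rw [ENNReal.mul_inv (Or.inr ENNReal.ofReal_ne_top) (Or.inl ENNReal.ofReal_ne_top),
        ← ENNReal.ofReal_inv_of_pos hκ0, hκ, inv_inv]
      congr 1
      rw [← ENNReal.ofReal_ofNat 4, ← ENNReal.ofReal_mul (by norm_num),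
        ← ENNReal.ofReal_mul (by positivity)]
      congr 1
      ring
    have hfin : ENNReal.ofReal (h / 4) * JJu ≤ ENNReal.ofReal (h / 4) *
        (CB * ENNReal.ofReal δ * E) := by
      refine hmain.trans ?_
      calc 3 * PB a ℓ univ * (2 * (ENNReal.ofReal (h / 4) * (ENNReal.ofReal h *
          ∫⁻ y in Q, W545.Man.sq ‖L y‖)) + ENNReal.ofReal (2 * ℓ) ^ 2 * ∫⁻ y in T, W545.Man.sq (L y e))
          ≤ 3 * PB a ℓ univ * (2 * (ENNReal.ofReal (h / 4) * (ENNReal.ofReal δ *
          ((ENNReal.ofReal a3)⁻¹ * E))) + ENNReal.ofReal (2 * ℓ) ^ 2 *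
          ((ENNReal.ofReal (h / 4) * (4 * ENNReal.ofReal δ) * (ENNReal.ofReal a2)⁻¹) * E)) := by
            rw [← hκinv]
            gcongr
        _ = _ := by rw [hCB]; ring
    have h8 := (ENNReal.mul_le_mul_iff_right hq0 ENNReal.ofReal_ne_top).1 hfin
    refine h8.trans ?_
    gcongr
    exact le_add_self

end Pool.Agent.W722.St
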