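import Mathlib
import Pool.Agent.W722.St.Step
set_option autoImplicit false
open Set Filter Topology MeasureTheory Metric
open scoped ENNReal Manifold ContDiff
open Pool.Agent.W545.Man

/-!
The boundary with its measure; reduction of the functional inequality to boxes in charts.
-/

namespace Pool.Agent.W722.St

variable {d : ℕ} {Ω : Type*} [TopologicalSpace Ω] [ChartedSpace (EuclideanHalfSpace (d + 1)) Ω]
  [IsManifold (𝓡∂ (d + 1)) ∞ Ω] [MeasurableSpace Ω]

omit [MeasurableSpace Ω] in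
theorem bd_closed : IsClosed ((𝓡∂ (d + 1)).boundary Ω) :=
  (𝓡∂ (d + 1)).isClosed_boundary (n := ∞) (by simp)

/-- iteration of the step -/
theorem iterate {ι : Type*} (s : Finset ι) {g0 : RMetric d Ω} {μ0 : Measure Ω}
    (h0 : IsVolume g0 μ0) (J : ι → (Ω → ℝ) → ℝ≥0∞) (C : ι → ℝ≥0∞) (δ : ℝ)
    (hstep : ∀ i, ∀ (g : RMetric d Ω) (μ : Measure Ω), Near g0 μ0 g μ →
      ∃ (g' : RMetric d Ω) (μ' : Measure Ω), Near g0 μ0 g' μ' ∧
        (∀ u, energy g μ u ≤ energy g' μ' u) ∧
        μ' univ ≤ μ univ + C i * ENNReal.ofReal δ⁻¹ ∧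
        ∀ u : Ω → ℝ, ContMDiff (𝓡∂ (d + 1)) 𝓘(ℝ, ℝ) ∞ u →
          J i u ≤ C i * ENNReal.ofReal δ * energy g' μ' u) :
    ∃ (g : RMetric d Ω) (μ : Measure Ω), Near g0 μ0 g μ ∧
      μ univ ≤ μ0 univ + (∑ i ∈ s, C i) * ENNReal.ofReal δ⁻¹ ∧
      ∀ i ∈ s, ∀ u : Ω → ℝ, ContMDiff (𝓡∂ (d + 1)) 𝓘(ℝ, ℝ) ∞ u →
          J i u ≤ C i * ENNReal.ofReal δ * energy g μ u := by
  classical
  induction s using Finset.induction_on with
  | empty =>
    exact ⟨g0, μ0, Near.refl h0, by simp, by simp⟩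
  | insert i s hi ih =>
    obtain ⟨g, μ, hn, hv, hJ⟩ := ih
    obtain ⟨g', μ', hn', he, hv', hJ'⟩ := hstep i g μ hn
    refine ⟨g', μ', hn', ?_, ?_⟩
    · rw [Finset.sum_insert hi]
      refine hv'.trans ?_
      calc μ univ + C i * ENNReal.ofReal δ⁻¹ ≤
          (μ0 univ + (∑ i ∈ s, C i) * ENNReal.ofReal δ⁻¹) + C i * ENNReal.ofReal δ⁻¹ := by gcongr
        _ = _ := by ring
    · intro j hj u hu
      rcases Finset.mem_insert.1 hj with rfl | hj
      · exact hJ' u hu
      · exact (hJ j hj u hu).trans (by gcongr; exact he u)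

variable [BorelSpace Ω] [T2Space Ω]

omit [T2Space Ω] in
/-- the boundary measure is carried by the boundary -/
theorem bd_null [CompactSpace Ω] {g0 : RMetric d Ω} {ν : Measure Ω} (hν : IsBdryVolume g0 ν) :
    ν ((𝓡∂ (d + 1)).boundary Ω)ᶜ = 0 := by
  have hloc : ∀ c : Ω, ν ((chartAt (EuclideanHalfSpace (d + 1)) c).source ∩
      ((𝓡∂ (d + 1)).boundary Ω)ᶜ) = 0 := by
    intro c
    have hsm : MeasurableSet (chartAt (EuclideanHalfSpace (d + 1)) c).source :=
      (chartAt (EuclideanHalfSpace (d + 1)) c).open_source.measurableSet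
    have hA : MeasurableSet {y : EE d | y 0 ≠ 0} := by
      have : Measurable fun y : EE d => y 0 := by fun_prop
      exact (this (measurableSet_singleton (0:ℝ))).compl
    have h := hν c ({y : EE d | y 0 ≠ 0}.indicator fun _ => 1) (measurable_const.indicator hA)
    have h2 : ∫⁻ z in {z : FF d | inj z ∈ (extChartAt (𝓡∂ (d + 1)) c).target},
        ({y : EE d | y 0 ≠ 0}.indicator (fun _ => (1:ℝ≥0∞)) (inj z)) *
        ENNReal.ofReal (√(bgram g0 c ((extChartAt (𝓡∂ (d + 1)) c).symm (inj z))).det) = 0 := by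
      have : ∀ z : FF d, ({y : EE d | y 0 ≠ 0}.indicator (fun _ => (1:ℝ≥0∞)) (inj z)) = 0 := by
        intro z
        apply indicator_of_notMem
        simp [inj_zero_coord]
      simp only [this, zero_mul, lintegral_zero]
    rw [h2] at h
    have hB : MeasurableSet ((chartAt (EuclideanHalfSpace (d + 1)) c).source ∩
      ((𝓡∂ (d + 1)).boundary Ω)ᶜ) := hsm.inter bd_closed.isOpen_compl.measurableSet
    have h3 : ν ((chartAt (EuclideanHalfSpace (d + 1)) c).source ∩
        ((𝓡∂ (d + 1)).boundary Ω)ᶜ) ≤ ∫⁻ x in (chartAt (EuclideanHalfSpace (d + 1)) c).source,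
        ({y : EE d | y 0 ≠ 0}.indicator (fun _ => (1:ℝ≥0∞)) (extChartAt (𝓡∂ (d + 1)) c x)) ∂ν := by
      rw [← lintegral_indicator_one hB, ← lintegral_indicator hsm]
      apply lintegral_mono
      intro x
      by_cases hx : x ∈ (chartAt (EuclideanHalfSpace (d + 1)) c).source ∩
        ((𝓡∂ (d + 1)).boundary Ω)ᶜ
      · rw [indicator_of_mem hx, indicator_of_mem hx.1, indicator_of_mem]
        · rfl
        · show (extChartAt (𝓡∂ (d + 1)) c x) 0 ≠ 0
          intro h0
          apply hx.2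
          rw [bd_iff (by rw [extChartAt_source]; exact hx.1)]
          exact h0
      · rw [indicator_of_notMem hx]; exact zero_le
    rw [h] at h3
    exact nonpos_iff_eq_zero.1 h3
  obtain ⟨t, ht⟩ := isCompact_univ.elim_finite_subcover
    (fun c : Ω => (chartAt (EuclideanHalfSpace (d + 1)) c).source)
    (fun c => (chartAt (EuclideanHalfSpace (d + 1)) c).open_source)
    (fun x _ => mem_iUnion.2 ⟨x, mem_chart_source _ x⟩)
  have hsub : ((𝓡∂ (d + 1)).boundary Ω)ᶜ ⊆ ⋃ c ∈ t,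
      ((chartAt (EuclideanHalfSpace (d + 1)) c).source ∩ ((𝓡∂ (d + 1)).boundary Ω)ᶜ) := by
    intro x hx
    obtain ⟨c, hc, hxc⟩ := mem_iUnion₂.1 (ht (mem_univ x))
    exact mem_iUnion₂.2 ⟨c, hc, hxc, hx⟩
  apply measure_mono_null hsub
  exact (measure_biUnion_null_iff t.countable_toSet).2 fun c _ => hloc c

/-- positivity of the boundary measure -/
theorem bd_pos {g0 : RMetric d Ω} {ν : Measure Ω} (hν : IsBdryVolume g0 ν) {O : Set Ω}
    (hO : IsOpen O) {p : Ω} (hp : p ∈ O) (hpb : p ∈ (𝓡∂ (d + 1)).boundary Ω) : ν O ≠ 0 := by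
  intro h0
  obtain ⟨r, hr, hsub, hUV⟩ := chart_nhds (d := d) (hO.mem_nhds hp)
  obtain ⟨a, b, ha, hb, h⟩ := bvol_bounds g0 p hsub (halfK_compact _ r)
  have h1 := (h ν hν _ Subset.rfl (halfK_compact _ r) (fun _ => 1) (fun _ => 1)
    continuousOn_const (fun _ _ => rfl)).1
  rw [setLIntegral_one, setLIntegral_one, measure_mono_null hUV h0] at h1
  have h2 := nonpos_iff_eq_zero.1 h1
  rw [mul_eq_zero] at h2
  rcases h2 with h2 | h2
  · rw [ENNReal.ofReal_eq_zero] at h2; linarith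
  · have hy0 : (ph d p p) 0 = 0 := (bd_iff (mem_extChartAt_source p)).1 hpb
    have hinj : inj (tailL d (ph d p p)) = ph d p p := by
      ext i
      refine Fin.cases ?_ (fun j => ?_) i
      · rw [inj_zero_coord]; exact hy0.symm
      · rfl
    have hset : {z : FF d | inj z ∈ closedBall (ph d p p) r ∩ {y : EE d | 0 ≤ y 0}} =
        closedBall (tailL d (ph d p p)) r := by
      ext x
      rw [← hinj]
      exact (inj_mem_HB (x0 := tailL d (ph d p p)) (x := x) (r := r)).trans (by rw [hinj])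
    rw [hset] at h2
    exact (Metric.measure_closedBall_pos volume _ hr).ne' h2

end Pool.Agent.W722.St
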