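import Mathlib
import Pool.Agent.W722.St.Bdry
set_option autoImplicit false
open Set Filter Topology MeasureTheory Metric
open scoped ENNReal Manifold ContDiff
open Pool.Agent.W545.Man

/-!
Metrics with fixed boundary values and a good functional inequality.
-/

namespace Pool.Agent.W722.St

variable {d : ℕ}

theorem norm_le_coords (v : EE d) {t : ℝ} (ht : 0 ≤ t) (h : ∀ i, |v i| ≤ t) :
    ‖v‖ ≤ ((d : ℝ) + 1) * t := by
  rw [EuclideanSpace.norm_eq, Real.sqrt_le_left (by positivity)]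
  calc ∑ i, ‖v i‖ ^ 2 ≤ ∑ _i : Fin (d + 1), t ^ 2 := by
        apply Finset.sum_le_sum
        intro i _
        have := h i
        rw [Real.norm_eq_abs]
        gcongr
    _ = ((d : ℝ) + 1) * t ^ 2 := by
        rw [Finset.sum_const, Finset.card_univ, Fintype.card_fin, nsmul_eq_mul]
        push_cast; ring
    _ ≤ (((d : ℝ) + 1) * t) ^ 2 := by
        have h1 : (1 : ℝ) ≤ (d : ℝ) + 1 := by
          have : (0:ℝ) ≤ d := Nat.cast_nonneg d
          linarith
        rw [mul_pow]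
        gcongr
        nlinarith

variable {Ω : Type*} [TopologicalSpace Ω] [ChartedSpace (EuclideanHalfSpace (d + 1)) Ω]
  [IsManifold (𝓡∂ (d + 1)) ∞ Ω]

/-- boxes at boundary points -/
theorem bdata {p : Ω} (hp : p ∈ (𝓡∂ (d + 1)).boundary Ω) : ∃ (a : Fin d → ℝ) (ℓ h : ℝ), 0 < ℓ ∧
    0 < h ∧ slab a (2 * ℓ) (Icc 0 h) ⊆ (ph d p).target ∧ ∃ U : Set Ω, IsOpen U ∧ p ∈ U ∧
      U ⊆ UK d p (slab a ℓ (Icc 0 h)) := by
  obtain ⟨r, hr, hsub, -⟩ := chart_nhds (d := d) (c := p) univ_mem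
  set y0 := ph d p p with hy0
  have hy00 : y0 0 = 0 := (bd_iff (mem_extChartAt_source p)).1 hp
  set a : Fin d → ℝ := fun i => y0 i.succ with ha
  set t : ℝ := r / (d + 1) with ht
  have htp : 0 < t := by positivity
  refine ⟨a, t / 2, t, by positivity, htp, ?_, ?_⟩
  · intro y hy
    apply hsub
    refine ⟨?_, hy.1.1⟩
    rw [mem_closedBall, dist_eq_norm]
    have h1 := norm_le_coords (y - y0) htp.le (by
      intro i
      refine Fin.cases ?_ (fun j => ?_) i
      · have e : (y - y0 : EE d) 0 = y 0 - y0 0 := by simp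
        rw [e, hy00, sub_zero, abs_of_nonneg hy.1.1]
        exact hy.1.2
      · have e : (y - y0 : EE d) j.succ = y j.succ - a j := by simp [ha]
        rw [e, abs_le]
        have := hy.2 j
        constructor
        · linarith [this.1]
        · linarith [this.2])
    refine h1.trans (le_of_eq ?_)
    rw [ht]
    field_simp
  · set O : Set (EE d) := {y | y 0 < t ∧ ∀ i : Fin d, y i.succ ∈ Ioo (a i - t / 2) (a i + t / 2)}
      with hO
    have hOo : IsOpen O := by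
      have h0 : ∀ i : Fin (d + 1), Continuous fun y : EE d => y i := fun i => by fun_prop
      have : O = (fun y : EE d => y 0) ⁻¹' Iio t ∩
          ⋂ i : Fin d, (fun y : EE d => y i.succ) ⁻¹' Ioo (a i - t / 2) (a i + t / 2) := by
        ext y; simp [hO]
      rw [this]
      exact (isOpen_Iio.preimage (h0 0)).inter
        (isOpen_iInter_of_finite fun i => isOpen_Ioo.preimage (h0 _))
    refine ⟨(chartAt (EuclideanHalfSpace (d + 1)) p).source ∩ (ph d p) ⁻¹' O,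
      isOpen_extChartAt_preimage p hOo, ⟨mem_chart_source _ p, ?_⟩, ?_⟩
    · refine ⟨?_, fun i => ⟨?_, ?_⟩⟩
      · show y0 0 < t
        rw [hy00]; exact htp
      · show a i - t / 2 < y0 i.succ
        simp only [ha]; linarith
      · show y0 i.succ < a i + t / 2
        simp only [ha]; linarith
    · rintro z ⟨hz1, hz2⟩
      rw [← extChartAt_source (𝓡∂ (d + 1))] at hz1
      exact ⟨hz1, ⟨ph_coord_nonneg p z, hz2.1.le⟩, fun i => Ioo_subset_Icc_self (hz2.2 i)⟩

variable [MeasurableSpace Ω] [BorelSpace Ω] [T2Space Ω]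

/-- integrals over the boundary part of a box -/
theorem box_transport {g0 : RMetric d Ω} {p : Ω} {a : Fin d → ℝ} {ℓ h : ℝ} (hh : 0 < h)
    (hK : slab a ℓ (Icc 0 h) ⊆ (ph d p).target) : ∃ b : ℝ≥0∞, b ≠ ⊤ ∧ ∀ ν : Measure Ω,
    IsBdryVolume g0 ν → ∀ u : Ω → ℝ, ContMDiff (𝓡∂ (d + 1)) 𝓘(ℝ, ℝ) ∞ u → ∀ c : ℝ,
    ∫⁻ x in UK d p (slab a ℓ (Icc 0 h)), W545.Man.sq (u x - c) ∂ν ≤
      b * ∫⁻ x in bx a ℓ, W545.Man.sq (loc d p u (cns 0 x) - c) := by
  have hKc : IsCompact (slab a ℓ (Icc 0 h)) := slab_compact a ℓ 0 h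
  obtain ⟨a', b, ha, hb, H⟩ := bvol_bounds g0 p hK hKc
  refine ⟨ENNReal.ofReal b, ENNReal.ofReal_ne_top, ?_⟩
  intro ν hν u hu c
  have hcont : ContinuousOn (fun y => W545.Man.sq (loc d p u y - c)) (slab a ℓ (Icc 0 h)) := by
    unfold Pool.Agent.W545.Man.sq
    exact ENNReal.continuous_ofReal.comp_continuousOn
      ((((loc_contDiff hu p).continuousOn.mono hK).sub continuousOn_const).pow 2)
  refine (H ν hν _ Subset.rfl hKc (fun x => W545.Man.sq (u x - c)) _ hcont (by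
    intro x hx
    rw [loc_val hx.1])).2.trans (le_of_eq ?_)
  congr 1
  have hset : {z : FF d | inj z ∈ slab a ℓ (Icc 0 h)} = WithLp.ofLp ⁻¹' bx a ℓ := by
    ext z
    have : inj z ∈ slab a ℓ (Icc 0 h) ↔ (0:ℝ) ∈ Icc 0 h ∧ z.ofLp ∈ bx a ℓ := cns_mem_slab
    rw [mem_ofPred_eq, this, mem_preimage]
    constructor
    · exact fun h => h.2
    · exact fun h' => ⟨⟨le_rfl, hh.le⟩, h'⟩
  rw [hset]
  exact (PiLp.volume_preserving_ofLp (Fin d)).setLIntegral_comp_preimage_emb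
    (MeasurableEquiv.toLp 2 (Fin d → ℝ)).symm.measurableEmbedding
    (fun x => W545.Man.sq (loc d p u (cns 0 x) - c)) (bx a ℓ)

theorem main [CompactSpace Ω] (hd : 2 ≤ d) (hconn : IsConnected ((𝓡∂ (d + 1)).boundary Ω))
    {g0 : RMetric d Ω} {μ0 ν : Measure Ω} (hμ0 : IsVolume g0 μ0) (hν : IsBdryVolume g0 ν) :
    ∃ C : ℝ≥0∞, C ≠ ⊤ ∧ ∀ δ : ℝ, 0 < δ → ∃ (g : RMetric d Ω) (μ : Measure Ω), Near g0 μ0 g μ ∧
      μ univ ≤ μ0 univ + C * ENNReal.ofReal δ⁻¹ ∧
      ∀ u : Ω → ℝ, ContMDiff (𝓡∂ (d + 1)) 𝓘(ℝ, ℝ) ∞ u → ∃ c : ℝ,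
        ∫⁻ x, W545.Man.sq (u x - c) ∂ν ≤ C * ENNReal.ofReal δ * energy g μ u := by
  classical
  set B : Set Ω := (𝓡∂ (d + 1)).boundary Ω with hB
  have hBc : IsClosed B := bd_closed
  have hBm : MeasurableSet B := hBc.measurableSet
  choose! a ℓ h hℓ hh hK U hUo hpU hUK using fun (p : Ω) (hp : p ∈ B) => bdata (d := d) hp
  have hK' : ∀ p ∈ B, slab (a p) (ℓ p) (Icc 0 (h p)) ⊆ (ph d p).target := fun p hp =>
    (slab_mono (by linarith [hℓ p hp]) subset_rfl).trans (hK p hp)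
  obtain ⟨t, htB, ht⟩ := hBc.isCompact.elim_nhds_subcover U
    (fun p hp => (hUo p hp).mem_nhds (hpU p hp))
  choose! CS hCS hstep using fun (p : Ω) (hp : p ∈ B) => step hd hμ0 (hℓ p hp) (hh p hp) (hK p hp)
  choose! bb hbb hT using fun (p : Ω) (hp : p ∈ B) =>
    box_transport (g0 := g0) (hh p hp) (hK' p hp)
  -- the boundary as a space
  have : ConnectedSpace B := isConnected_iff_connectedSpace.1 hconn
  have := bvol_locFin hν
  set κ : Measure B := ν.comap Subtype.val with hκ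
  have hκa : ∀ O : Set B, MeasurableSet O → κ O = ν (Subtype.val '' O) := fun O hO =>
    comap_subtype_coe_apply hBm ν O
  have hκfin : IsFiniteMeasure κ := by
    refine ⟨?_⟩
    rw [hκa _ MeasurableSet.univ]
    exact measure_lt_top _ _
  have hκpos : κ.IsOpenPosMeasure := by
    refine ⟨fun O hO ⟨p, hp⟩ h0 => ?_⟩
    obtain ⟨O', hO', rfl⟩ := isOpen_induced_iff.1 hO
    rw [hκa _ hO.measurableSet] at h0
    apply bd_pos hν hO' hp p.2
    have h1 : O' ⊆ (Subtype.val '' (Subtype.val ⁻¹' O' : Set B)) ∪ Bᶜ := by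
      intro x hx
      by_cases hxB : x ∈ B
      · left; exact ⟨⟨x, hxB⟩, hx, rfl⟩
      · right; exact hxB
    apply measure_mono_null h1
    rw [measure_union_null_iff]
    exact ⟨h0, bd_null hν⟩
  obtain ⟨C0, hC0, hch⟩ := chain κ (fun p : t => (Subtype.val ⁻¹' U p : Set B))
    (fun p => (hUo p (htB p p.2)).preimage continuous_subtype_val) (by
      rw [eq_univ_iff_forall]
      intro x
      obtain ⟨p, hp, hx⟩ := mem_iUnion₂.1 (ht x.2)
      exact mem_iUnion.2 ⟨⟨p, hp⟩, hx⟩)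
  set C1 : ℝ≥0∞ := ∑ p ∈ t, bb p * ((d : ℝ≥0∞) * ((d : ℝ≥0∞) * CS p) / PB (a p) (ℓ p) univ) with hC1
  set C2 : ℝ≥0∞ := ∑ i : t × Fin d, CS i.1 with hC2
  have hC1t : C1 ≠ ⊤ := by
    rw [hC1]
    apply ENNReal.sum_ne_top.2
    intro p hp
    apply ENNReal.mul_ne_top (hbb p (htB p hp))
    apply ENNReal.div_ne_top _ (PB_univ_ne _ (hℓ p (htB p hp)))
    have := hCS p (htB p hp)
    finiteness
  have hC2t : C2 ≠ ⊤ := by
    rw [hC2]
    exact ENNReal.sum_ne_top.2 fun i _ => hCS _ (htB _ i.1.2)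
  refine ⟨C2 + C0 * C1, by finiteness, ?_⟩
  intro δ hδ
  obtain ⟨g, μ, hn, hv, hJ⟩ := iterate (ι := t × Fin d) Finset.univ hμ0
    (fun i u => JJ (PB (a i.1) (ℓ i.1)) i.2 (fun x => loc d (i.1 : Ω) u (cns 0 x)))
    (fun i => CS i.1) δ (fun i g μ hn => hstep i.1 (htB _ i.1.2) δ hδ i.2 g μ hn)
  refine ⟨g, μ, hn, hv.trans ?_, ?_⟩
  · gcongr
    exact le_self_add
  intro u hu
  set E := energy g μ u with hE
  have hum : Measurable fun x : B => u x := hu.continuous.measurable.comp measurable_subtype_coe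
  obtain ⟨c, hc⟩ := hch (fun x : B => u x) hum (C1 * (ENNReal.ofReal δ * E)) (by
    intro p
    have hpB := htB p p.2
    have hvc : ContinuousOn (fun x : Fin d → ℝ => loc d (p : Ω) u (cns 0 x)) (bx (a p) (ℓ p)) := by
      apply ((loc_contDiff hu (p : Ω)).continuousOn.mono (hK' p hpB)).comp
      · have : Continuous fun x : Fin d → ℝ => (cns 0 x : EE d) :=
          cns_cont.comp (continuous_const.prodMk continuous_id)
        exact this.continuousOn
      · intro x hx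
        exact cns_mem_slab.2 ⟨⟨le_rfl, (hh p hpB).le⟩, hx⟩
    obtain ⟨c, hc⟩ := box_const (a p) (hℓ p hpB) hvc
    refine ⟨c, ?_⟩
    have e1 : ∫⁻ x in (Subtype.val ⁻¹' U p : Set B), W545.Man.sq (u x - c) ∂κ ≤
        ∫⁻ x in UK d (p : Ω) (slab (a p) (ℓ p) (Icc 0 (h p))), W545.Man.sq (u x - c) ∂ν := by
      rw [hκ, setLIntegral_subtype hBm _ (fun x => W545.Man.sq (u x - c))]
      apply lintegral_mono_set
      rintro _ ⟨x, hx, rfl⟩
      exact hUK p hpB hx
    refine e1.trans ((hT p hpB ν hν u hu c).trans ?_)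
    calc bb p * ∫⁻ x in bx (a p) (ℓ p), W545.Man.sq (loc d (p : Ω) u (cns 0 x) - c)
        ≤ bb p * ((d : ℝ≥0∞) * (∑ k : Fin d, CS p * ENNReal.ofReal δ * E) / PB (a p) (ℓ p) univ) := by
          gcongr
          refine hc.trans ?_
          gcongr with k
          exact hJ (p, k) (Finset.mem_univ _) u hu
      _ = bb p * ((d : ℝ≥0∞) * ((d : ℝ≥0∞) * CS p) / PB (a p) (ℓ p) univ) *
          (ENNReal.ofReal δ * E) := by
          rw [Finset.sum_const, Finset.card_univ, Fintype.card_fin, nsmul_eq_mul,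
            ENNReal.div_eq_inv_mul, ENNReal.div_eq_inv_mul]
          ring
      _ ≤ C1 * (ENNReal.ofReal δ * E) := by
          gcongr
          exact Finset.single_le_sum (f := fun p => bb p * ((d : ℝ≥0∞) * ((d : ℝ≥0∞) * CS p) /
            PB (a p) (ℓ p) univ)) (fun _ _ => zero_le) p.2)
  refine ⟨c, ?_⟩
  have e2 : ∫⁻ x, W545.Man.sq (u x - c) ∂ν = ∫⁻ x : B, W545.Man.sq (u x - c) ∂κ := by
    rw [hκ, lintegral_subtype_comap hBm (fun x => W545.Man.sq (u x - c))]
    rw [← lintegral_add_compl (fun x => W545.Man.sq (u x - c)) hBm, Measure.restrict_eq_zero.2 (bd_null hν)]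
    simp
  rw [e2]
  rw [setLIntegral_univ] at hc
  refine hc.trans ?_
  calc C0 * (C1 * (ENNReal.ofReal δ * E)) = (C0 * C1) * ENNReal.ofReal δ * E := by ring
    _ ≤ _ := by
      gcongr
      exact le_add_self

end Pool.Agent.W722.St
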