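import Mathlib
import Pool.Agent.W722.St.Final
set_option autoImplicit false
open Set Filter Topology MeasureTheory Metric
open scoped ENNReal Manifold ContDiff
open Pool.Agent.W545.Man

/-!
The normalised first Steklov eigenvalue with fixed boundary metric is unbounded.
-/

namespace Pool.Agent.W722.St

variable {d : ℕ} {Ω : Type*} [TopologicalSpace Ω] [ChartedSpace (EuclideanHalfSpace (d + 1)) Ω]
  [IsManifold (𝓡∂ (d + 1)) ∞ Ω] [MeasurableSpace Ω] [BorelSpace Ω] [T2Space Ω]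

omit [BorelSpace Ω] [T2Space Ω] in
/-- the measure on the boundary depends only on the metric along the boundary -/
theorem bdry_congr {g0 g : RMetric d Ω} {ν : Measure Ω} (hν : IsBdryVolume g0 ν)
    (h : ∀ z ∈ (𝓡∂ (d + 1)).boundary Ω, g.inner z = g0.inner z) : IsBdryVolume g ν := by
  intro c f hf
  rw [hν c f hf]
  have hm : MeasurableSet {z : FF d | inj z ∈ (extChartAt (𝓡∂ (d + 1)) c).target} :=
    (target_meas c).preimage ((injL d).continuous.measurable)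
  apply setLIntegral_congr_fun hm
  intro z hz
  have hz' : inj z ∈ (ph d c).target := hz
  have hs := (ph d c).map_target hz'
  have hb : (ph d c).symm (inj z) ∈ (𝓡∂ (d + 1)).boundary Ω := by
    rw [bd_iff hs, (ph d c).right_inv hz']
    rfl
  have e : bgram g0 c ((extChartAt (𝓡∂ (d + 1)) c).symm (inj z)) =
      bgram g c ((extChartAt (𝓡∂ (d + 1)) c).symm (inj z)) := by
    unfold bgram gram coeff
    rw [h _ hb]
  simp only [e]

omit [MeasurableSpace Ω] [BorelSpace Ω] [T2Space Ω] in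
theorem lower_aux {C M b m : ℝ≥0∞} {s : ℝ≥0∞} {δ a : ℝ} (ha : 0 < a) (hδ : 0 < δ) (hδ1 : δ ≤ 1)
    (hs : (C * ENNReal.ofReal δ)⁻¹ ≤ s) (hm : m ≤ M + C * ENNReal.ofReal δ⁻¹)
    (hC0 : C ≠ 0) (hC : C ≠ ⊤) (hM : M ≠ ⊤) :
    C⁻¹ * (M + C) ^ (-a) * b * ENNReal.ofReal (δ⁻¹ ^ (1 - a)) ≤ s * m ^ (-a) * b := by
  have h1 : (C * ENNReal.ofReal δ)⁻¹ = C⁻¹ * ENNReal.ofReal δ⁻¹ := by
    rw [ENNReal.mul_inv (Or.inl hC0) (Or.inl hC), ENNReal.ofReal_inv_of_pos hδ]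
  have h2 : m ≤ (M + C) * ENNReal.ofReal δ⁻¹ := by
    refine hm.trans ?_
    rw [add_mul]
    gcongr
    apply le_mul_of_one_le_right (zero_le)
    rw [← ENNReal.ofReal_one]
    exact ENNReal.ofReal_le_ofReal ((one_le_inv₀ hδ).2 hδ1)
  have h3 : ((M + C) * ENNReal.ofReal δ⁻¹) ^ (-a) ≤ m ^ (-a) := by
    rw [ENNReal.rpow_neg, ENNReal.rpow_neg]
    exact ENNReal.inv_le_inv.2 (ENNReal.rpow_le_rpow h2 ha.le)
  have hpos : 0 < δ⁻¹ := by positivity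
  have h4 : ((M + C) * ENNReal.ofReal δ⁻¹) ^ (-a) =
      (M + C) ^ (-a) * ENNReal.ofReal (δ⁻¹ ^ (-a)) := by
    rw [ENNReal.mul_rpow_of_ne_top (by finiteness) (by finiteness),
      ENNReal.ofReal_rpow_of_pos hpos]
  have h5 : ENNReal.ofReal (δ⁻¹ ^ (1 - a)) = ENNReal.ofReal δ⁻¹ * ENNReal.ofReal (δ⁻¹ ^ (-a)) := by
    rw [← ENNReal.ofReal_mul hpos.le, sub_eq_add_neg, Real.rpow_add hpos, Real.rpow_one]
  calc C⁻¹ * (M + C) ^ (-a) * b * ENNReal.ofReal (δ⁻¹ ^ (1 - a))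
      = (C⁻¹ * ENNReal.ofReal δ⁻¹) * ((M + C) ^ (-a) * ENNReal.ofReal (δ⁻¹ ^ (-a))) * b := by
        rw [h5]; ring
    _ ≤ s * m ^ (-a) * b := by
        rw [← h1, ← h4]
        gcongr

theorem final [CompactSpace Ω] (hd : 2 ≤ d) (hconn : IsConnected ((𝓡∂ (d + 1)).boundary Ω))
    {g0 : RMetric d Ω} {μ0 ν : Measure Ω} (hμ0 : IsVolume g0 μ0) (hν : IsBdryVolume g0 ν) :
    ∃ (g : ℝ → RMetric d Ω) (μ : ℝ → Measure Ω),
      (∀ ε, 0 < ε → IsVolume (g ε) (μ ε) ∧ IsBdryVolume (g ε) ν ∧ ∃ V : Set Ω, IsOpen V ∧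
        (𝓡∂ (d + 1)).boundary Ω ⊆ V ∧ ∀ x ∈ V, (g ε).inner x = g0.inner x) ∧
      Tendsto (fun ε => nsigma 1 (g ε) (μ ε) ν) (𝓝[>] 0) (𝓝 ⊤) := by
  obtain ⟨C, hC, H⟩ := main hd hconn hμ0 hν
  have H' : ∀ δ : ℝ, ∃ (g : RMetric d Ω) (μ : Measure Ω), 0 < δ → Near g0 μ0 g μ ∧
      μ univ ≤ μ0 univ + C * ENNReal.ofReal δ⁻¹ ∧
      ∀ u : Ω → ℝ, ContMDiff (𝓡∂ (d + 1)) 𝓘(ℝ, ℝ) ∞ u → ∃ c : ℝ,
        ∫⁻ x, W545.Man.sq (u x - c) ∂ν ≤ C * ENNReal.ofReal δ * energy g μ u := by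
    intro δ
    by_cases hδ : 0 < δ
    · obtain ⟨g, μ, h⟩ := H δ hδ
      exact ⟨g, μ, fun _ => h⟩
    · exact ⟨g0, μ0, fun h => absurd h hδ⟩
  choose g μ hg using H'
  refine ⟨g, μ, ?_, ?_⟩
  · intro ε hε
    obtain ⟨⟨hv, V, hVo, hBV, hV, -⟩, -, -⟩ := hg ε hε
    exact ⟨hv, bdry_congr hν fun z hz => hV z (hBV hz), V, hVo, hBV, hV⟩
  · have := bvol_locFin hν
    have hνfin : IsFiniteMeasure ν := ⟨isCompact_univ.measure_lt_top⟩
    have := vol_locFin hμ0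
    have hM : μ0 univ ≠ ⊤ := isCompact_univ.measure_lt_top.ne
    obtain ⟨p, hp⟩ := hconn.nonempty
    have hν0 : ν univ ≠ 0 := bd_pos hν isOpen_univ (mem_univ p) hp
    set C' : ℝ≥0∞ := C + 1 with hC'
    have hC'0 : C' ≠ 0 := by simp [hC']
    have hC't : C' ≠ ⊤ := by rw [hC']; finiteness
    have hd0 : (2 : ℝ) ≤ d := by exact_mod_cast hd
    set a : ℝ := ((d : ℝ) - 1) / (d + 1) with ha
    have ha0 : 0 < a := by
      rw [ha]; apply div_pos <;> linarith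
    have ha1 : a < 1 := by
      rw [ha, div_lt_one (by linarith)]; linarith
    have hexp : (1 - (d : ℝ)) / (d + 1) = -a := by
      rw [ha, ← neg_div]; congr 1; ring
    set K : ℝ≥0∞ := C'⁻¹ * (μ0 univ + C') ^ (-a) * ν univ with hK
    have hK0 : K ≠ 0 := by
      rw [hK]
      refine mul_ne_zero (mul_ne_zero (ENNReal.inv_ne_zero.2 hC't) ?_) hν0
      rw [ENNReal.rpow_neg]
      apply ENNReal.inv_ne_zero.2
      apply ENNReal.rpow_ne_top_of_nonneg ha0.le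
      finiteness
    have hlim : Tendsto (fun ε : ℝ => K * ENNReal.ofReal (ε⁻¹ ^ (1 - a))) (𝓝[>] 0) (𝓝 ⊤) := by
      have h1 : Tendsto (fun ε : ℝ => ENNReal.ofReal (ε⁻¹ ^ (1 - a))) (𝓝[>] 0) (𝓝 ⊤) :=
        ENNReal.tendsto_ofReal_nhds_top.2
          ((tendsto_rpow_atTop (by linarith)).comp tendsto_inv_nhdsGT_zero)
      have h2 := ENNReal.Tendsto.const_mul (a := K) h1 (Or.inl ENNReal.top_ne_zero)
      rwa [ENNReal.mul_top hK0] at h2
    refine tendsto_nhds_top_mono hlim ?_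
    filter_upwards [Ioo_mem_nhdsGT (zero_lt_one (α := ℝ))] with ε hε
    obtain ⟨-, hm, hu⟩ := hg ε hε.1
    have hs : (C' * ENNReal.ofReal ε)⁻¹ ≤ sigma 1 (g ε) (μ ε) ν := by
      apply sigma_one_ge
      intro u hu'
      obtain ⟨c, hc⟩ := hu u hu'
      refine ⟨c, hc.trans ?_⟩
      gcongr
      exact le_self_add
    have hm' : (μ ε) univ ≤ μ0 univ + C' * ENNReal.ofReal ε⁻¹ := by
      refine hm.trans ?_
      gcongr
      exact le_self_add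
    have := lower_aux (b := ν univ) ha0 hε.1 hε.2.le hs hm' hC'0 hC't hM
    unfold nsigma
    rw [hexp]
    exact this

end Pool.Agent.W722.St
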